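import Mathlib

set_option autoImplicit false
open Set Filter Topology Function

namespace Pool.Agent.H.MP_a1e890

variable {ι : Type*}

noncomputable def gg (t : ℝ) : ℝ := t * (1 - t / 4)

noncomputable def val (s : Finset ι) (l a b : ι → ℝ) : ℝ := ∑ j ∈ s, (l j * a j + gg (l j) * b j)

def Prob (s : Finset ι) (l : ι → ℝ) : Prop := (∀ j ∈ s, 0 ≤ l j) ∧ ∑ j ∈ s, l j = 1

noncomputable def SS (J : Set ι) (a b : ι → ℝ) : ℝ :=
  sSup {v | ∃ (s : Finset ι) (l : ι → ℝ), ↑s ⊆ J ∧ Prob s l ∧ v = val s l a b}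

theorem Prob.le_one {s : Finset ι} {l : ι → ℝ} (h : Prob s l) {j : ι} (hj : j ∈ s) : l j ≤ 1 :=
  (Finset.single_le_sum h.1 hj).trans_eq h.2

theorem val_le {s : Finset ι} {l a b : ι → ℝ} (h : Prob s l) {R : ℝ}
    (hR : ∀ j ∈ s, ∀ γ ∈ Icc (0 : ℝ) 1, a j + γ * b j ≤ R) : val s l a b ≤ R := by
  refine (Finset.sum_le_sum (g := fun j => l j * R) fun j hj => ?_).trans_eq ?_
  · have := mul_le_mul_of_nonneg_left (hR j hj (1 - l j / 4)
      ⟨by linarith [h.le_one hj], by linarith [h.1 j hj]⟩) (h.1 j hj)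
    unfold gg
    linarith
  · rw [← Finset.sum_mul, h.2, one_mul]

theorem val_sub (s : Finset ι) (l a b a' b' : ι → ℝ) :
    val s l a b - val s l a' b' = val s l (fun j => a j - a' j) fun j => b j - b' j := by
  unfold val
  rw [← Finset.sum_sub_distrib]
  exact Finset.sum_congr rfl fun j _ => by ring

theorem le_SS {J : Set ι} {a b : ι → ℝ} {R : ℝ}
    (hR : ∀ j ∈ J, ∀ γ ∈ Icc (0 : ℝ) 1, a j + γ * b j ≤ R) {s : Finset ι} {l : ι → ℝ}
    (hs : ↑s ⊆ J) (h : Prob s l) : val s l a b ≤ SS J a b :=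
  le_csSup ⟨R, by
    rintro _ ⟨s, l, h1, h2, rfl⟩
    exact val_le h2 fun j hj => hR j (h1 hj)⟩ ⟨s, l, hs, h, rfl⟩

theorem prob_single (j : ι) : Prob {j} fun _ => 1 := ⟨fun _ _ => zero_le_one, by simp⟩

theorem SS_le {J : Set ι} {a b : ι → ℝ} {R : ℝ} (hJ : J.Nonempty)
    (h : ∀ (s : Finset ι) l, ↑s ⊆ J → Prob s l → val s l a b ≤ R) : SS J a b ≤ R := by
  obtain ⟨j, hj⟩ := hJ
  refine csSup_le ⟨_, {j}, _, by simpa using hj, prob_single j, rfl⟩ ?_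
  rintro _ ⟨s, l, h1, h2, rfl⟩
  exact h s l h1 h2

theorem single_le_SS {J : Set ι} {a b : ι → ℝ} {R : ℝ}
    (hR : ∀ j ∈ J, ∀ γ ∈ Icc (0 : ℝ) 1, a j + γ * b j ≤ R) {j : ι} (hj : j ∈ J) :
    a j + 3 / 4 * b j ≤ SS J a b := by
  refine le_of_eq_of_le ?_ (le_SS hR (s := {j}) (by simpa using hj) (prob_single j))
  simp only [val, gg, Finset.sum_singleton]
  ring

theorem SS_sub {J : Set ι} {a b a' b' : ι → ℝ} {R T : ℝ} (hJ : J.Nonempty)
    (hR : ∀ j ∈ J, ∀ γ ∈ Icc (0 : ℝ) 1, a' j + γ * b' j ≤ R)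
    (h : ∀ j ∈ J, ∀ γ ∈ Icc (0 : ℝ) 1, a j - a' j + γ * (b j - b' j) ≤ T) :
    SS J a b ≤ SS J a' b' + T := by
  refine SS_le hJ fun s l h1 h2 => ?_
  have a1 := le_SS hR h1 h2
  have a2 := val_le h2 fun j hj => h j (h1 hj)
  rw [← val_sub] at a2
  linarith

def Opt (F : Finset ι) (l a b : ι → ℝ) : Prop :=
  Prob F l ∧ ∀ μ, Prob F μ → val F μ a b ≤ val F l a b

theorem exists_opt {F : Finset ι} (hF : F.Nonempty) (a b : ι → ℝ) : ∃ l, Opt F l a b := by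
  classical
  have hc : IsCompact {l : ι → ℝ | l ∈ univ.pi (fun _ => Icc (0 : ℝ) 1) ∧ ∑ j ∈ F, l j = 1} :=
    (isCompact_univ_pi fun _ => isCompact_Icc).inter_right
      (isClosed_eq (by fun_prop) continuous_const)
  have tr : ∀ μ, Prob F μ → (fun j => if j ∈ F then μ j else 0) ∈
      {l : ι → ℝ | l ∈ univ.pi (fun _ => Icc (0 : ℝ) 1) ∧ ∑ j ∈ F, l j = 1} := fun μ hμ =>
    ⟨fun j _ => by
      by_cases e : j ∈ F
      · simpa [e] using ⟨hμ.1 j e, hμ.le_one e⟩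
      · simp [e], (Finset.sum_congr rfl fun j hj => if_pos hj).trans hμ.2⟩
  obtain ⟨j0, h0⟩ := hF
  obtain ⟨l, h1, h2⟩ := hc.exists_isMaxOn ⟨_, tr (fun j => if j = j0 then 1 else 0)
    ⟨fun j _ => by positivity, by simp [h0]⟩⟩ (f := fun l => val F l a b)
    (Continuous.continuousOn (by unfold val gg; fun_prop))
  refine ⟨l, ⟨fun j _ => (h1.1 j trivial).1, h1.2⟩, fun μ hμ => le_of_eq_of_le ?_ (h2 (tr μ hμ))⟩
  exact Finset.sum_congr rfl fun j hj => by simp only [if_pos hj]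

theorem Opt.strong {F : Finset ι} {l μ a b : ι → ℝ} (h : Opt F l a b) (hμ : Prob F μ) {η : ℝ}
    (h0 : 0 ≤ η) (hb : ∀ j ∈ F, η ≤ b j) {j : ι} (hj : j ∈ F) :
    η * (l j - μ j) ^ 2 ≤ 8 * (val F l a b - val F μ a b) := by
  have a1 := h.2 (fun j => (l j + μ j) / 2) ⟨fun j hj => by linarith [h.1.1 j hj, hμ.1 j hj], by
    rw [← Finset.sum_div, Finset.sum_add_distrib, h.1.2, hμ.2]; norm_num⟩
  have a2 : val F (fun j => (l j + μ j) / 2) a b = (val F l a b + val F μ a b) / 2 +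
      (∑ j ∈ F, b j * (l j - μ j) ^ 2) / 16 := by
    unfold val gg
    rw [← Finset.sum_add_distrib, Finset.sum_div, Finset.sum_div, ← Finset.sum_add_distrib]
    exact Finset.sum_congr rfl fun j _ => by ring
  have a3 := Finset.single_le_sum (f := fun j => b j * (l j - μ j) ^ 2)
    (fun j hj => mul_nonneg (h0.trans (hb j hj)) (sq_nonneg _)) hj
  have a4 := mul_le_mul_of_nonneg_right (hb j hj) (sq_nonneg (l j - μ j))
  linarith

theorem Opt.eq_SS {J : Set ι} {F : Finset ι} {l a b : ι → ℝ} (h : Opt F l a b) (hF : ↑F ⊆ J)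
    {j0 : ι} (h0 : j0 ∈ F) (hb : ∀ j ∈ J, 0 ≤ b j)
    (hl : ∀ j ∈ J, j ∉ F → a j + b j ≤ a j0 + b j0 / 2) : SS J a b = val F l a b := by
  classical
  have key : ∀ (s : Finset ι) μ, ↑s ⊆ J → Prob s μ → val s μ a b ≤ val F l a b := by
    intro s μ h1 h2
    obtain ⟨r, hr⟩ : ∃ r, r = ∑ j ∈ s \ F, μ j := ⟨_, rfl⟩
    obtain ⟨ν, hν⟩ : ∃ ν : ι → ℝ, ∀ j, ν j = if j ∈ s then μ j else 0 := ⟨_, fun _ => rfl⟩
    have r0 : 0 ≤ r := hr ▸ Finset.sum_nonneg fun j hj => h2.1 j (Finset.mem_sdiff.1 hj).1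
    have n0 : ∀ j, 0 ≤ ν j := fun j => by
      rw [hν]
      split_ifs with e
      exacts [h2.1 j e, le_rfl]
    have sm : ∀ φ : ι → ℝ → ℝ, (∀ j, φ j 0 = 0) →
        ∑ j ∈ F, φ j (ν j) = ∑ j ∈ s ∩ F, φ j (μ j) := fun φ hφ => by
      rw [Finset.inter_comm, ← Finset.sum_ite_mem]
      exact Finset.sum_congr rfl fun j _ => by rw [hν]; split_ifs <;> simp [hφ]
    have s1 : ∑ j ∈ F, ν j + r = 1 := by
      rw [sm (fun _ t => t) fun _ => rfl, hr, Finset.sum_inter_add_sum_sdiff, h2.2]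
    have n1 : ν j0 + r ≤ 1 := by
      linarith [Finset.single_le_sum (fun j _ => n0 j) h0]
    refine le_trans ?_ (h.2 (fun j => ν j + if j = j0 then r else 0)
      ⟨fun j _ => add_nonneg (n0 j) (by positivity), by
        rw [Finset.sum_add_distrib, Finset.sum_ite_eq', if_pos h0, s1]⟩)
    have e1 : val s μ a b ≤ val F ν a b + r * (a j0 + b j0 / 2) := by
      unfold val
      rw [sm (fun j t => t * a j + gg t * b j) fun j => by simp [gg],
        ← Finset.sum_inter_add_sum_sdiff s F, hr, Finset.sum_mul]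
      refine add_le_add le_rfl (Finset.sum_le_sum fun j hj => ?_)
      obtain ⟨j1, j2⟩ := Finset.mem_sdiff.1 hj
      have := mul_le_mul_of_nonneg_left (hl j (h1 j1) j2) (h2.1 j j1)
      have := mul_nonneg (mul_self_nonneg (μ j)) (hb j (h1 j1))
      unfold gg
      nlinarith
    refine e1.trans ?_
    unfold val
    have e2 : ∑ j ∈ F.erase j0, ((ν j + if j = j0 then r else 0) * a j +
        gg (ν j + if j = j0 then r else 0) * b j) =
        ∑ j ∈ F.erase j0, (ν j * a j + gg (ν j) * b j) := Finset.sum_congr rfl fun j hj => by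
      rw [if_neg (Finset.ne_of_mem_erase hj), add_zero]
    simp only
    rw [← Finset.add_sum_erase F _ h0, ← Finset.add_sum_erase F _ h0, if_pos rfl, e2]
    have := mul_nonneg (mul_nonneg r0 (hb j0 (hF h0)))
      (show 0 ≤ 2 - 2 * ν j0 - r by linarith [n0 j0])
    unfold gg
    nlinarith
  exact le_antisymm (SS_le ⟨j0, hF h0⟩ key) (le_csSup ⟨_, by
    rintro _ ⟨s, μ, h1, h2, rfl⟩
    exact key s μ h1 h2⟩ ⟨F, l, hF, h.1, rfl⟩)

theorem val_neg (s : Finset ι) (l a b : ι → ℝ) :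
    val s l (fun j => -a j) (fun j => -b j) = -val s l a b := by
  unfold val
  rw [← Finset.sum_neg_distrib]
  exact Finset.sum_congr rfl fun j _ => by ring

theorem val_abs {s : Finset ι} {l a b : ι → ℝ} (h : Prob s l) {p q : ℝ}
    (ha : ∀ j ∈ s, |a j| ≤ p) (hb : ∀ j ∈ s, |b j| ≤ q) : |val s l a b| ≤ p + q := by
  have k : ∀ j ∈ s, ∀ γ ∈ Icc (0 : ℝ) 1, |γ * b j| ≤ q := fun j hj γ hγ => by
    rw [abs_mul, abs_of_nonneg hγ.1]
    exact (mul_le_of_le_one_left (abs_nonneg _) hγ.2).trans (hb j hj)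
  refine abs_le.2 ⟨?_, val_le h fun j hj γ hγ => by
    linarith [(abs_le.1 (ha j hj)).2, (abs_le.1 (k j hj γ hγ)).2]⟩
  have := val_le (a := fun j => -a j) (b := fun j => -b j) (R := p + q) h fun j hj γ hγ => by
    linarith [(abs_le.1 (ha j hj)).1, (abs_le.1 (k j hj γ hγ)).1]
  rw [val_neg] at this
  linarith

theorem val_near {F : Finset ι} {l μ a b : ι → ℝ} (hl : Prob F l) (hμ : Prob F μ) {κ t : ℝ}
    (h : ∀ j ∈ F, |μ j - l j| ≤ κ) (ha : ∀ j ∈ F, |a j| ≤ t) (hb : ∀ j ∈ F, |b j| ≤ t) :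
    |val F μ a b - val F l a b| ≤ F.card * (2 * κ * t) := by
  unfold val
  rw [← Finset.sum_sub_distrib, ← nsmul_eq_mul]
  refine (Finset.abs_sum_le_sum_abs _ _).trans (Finset.sum_le_card_nsmul _ _ _ fun j hj => ?_)
  have e : μ j * a j + gg (μ j) * b j - (l j * a j + gg (l j) * b j) =
      (μ j - l j) * (a j + (1 - (μ j + l j) / 4) * b j) := by
    unfold gg
    ring
  have a1 : |1 - (μ j + l j) / 4| ≤ 1 :=
    abs_le.2 ⟨by linarith [hl.le_one hj, hμ.le_one hj], by linarith [hl.1 j hj, hμ.1 j hj]⟩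
  have a2 : |a j + (1 - (μ j + l j) / 4) * b j| ≤ 2 * t := by
    refine (abs_add_le _ _).trans ?_
    rw [abs_mul]
    linarith [ha j hj, hb j hj, mul_le_of_le_one_left (abs_nonneg (b j)) a1]
  rw [e, abs_mul]
  exact (mul_le_mul (h j hj) a2 (abs_nonneg _) ((abs_nonneg _).trans (h j hj))).trans_eq (by ring)

variable {X : Type*} [NormedAddCommGroup X] [NormedSpace ℝ X]

def Lp (f : X → ℝ) (C : ℝ) : Prop := ∀ x y, |f y - f x| ≤ C * ‖y - x‖

omit [NormedSpace ℝ X] in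
theorem Lp.lip {f : X → ℝ} {C : ℝ} (h : Lp f C) : LipschitzWith C.toNNReal f :=
  LipschitzWith.of_dist_le_mul fun x y => by
    rw [Real.dist_eq, dist_eq_norm]
    exact (h y x).trans (mul_le_mul_of_nonneg_right (Real.le_coe_toNNReal C) (norm_nonneg _))

theorem Lp.dir {f : X → ℝ} {C : ℝ} (h : Lp f C) (hC : 0 ≤ C) {x y v : X} {s : ℝ} (hv : ‖v‖ ≤ 1)
    (e : y = x + s • v) : |f y - f x| ≤ C * |s| := by
  refine (h x y).trans (mul_le_mul_of_nonneg_left ?_ hC)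
  rw [e, add_sub_cancel_left, norm_smul, Real.norm_eq_abs]
  exact mul_le_of_le_one_right (abs_nonneg _) hv

def Df (H : Set X) (f : X → ℝ) (x0 : X) (δ : ℝ) : Prop :=
  ∃ φ : X →L[ℝ] ℝ, ∀ᶠ p : X × X in 𝓝 (x0, x0), ∀ h ∈ H, ∀ s : ℝ, p.2 = p.1 + s • h →
    |f p.2 - f p.1 - s * φ h| ≤ δ * |s|

variable {H : Set X} {x0 : X}

theorem Df.SS (hH : ∀ h ∈ H, ‖h‖ ≤ 1) {J : Set ι} {a b : ι → X → ℝ} {N : X → ℝ}
    {δ1 δ2 η ε : ℝ} {j0 : ι} (la : ∀ j ∈ J, Lp (a j) 2) (lb : ∀ j ∈ J, Lp (b j) 2) (lN : Lp N 1)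
    (b0 : ∀ j ∈ J, ∀ x, 0 ≤ b j x) (aN : ∀ j ∈ J, ∀ x, a j x ≤ N x) (hj : j0 ∈ J) (hη : 0 < η)
    (top : N x0 + 4 * η ≤ a j0 x0 + b j0 x0 / 2) (hf : {j ∈ J | η ≤ b j x0}.Finite)
    (ha : ∀ j ∈ J, η ≤ b j x0 → Df H (a j) x0 δ1)
    (hb : ∀ j ∈ J, η ≤ b j x0 → Df H (b j) x0 δ2) (hε : 0 < ε) :
    Df H (fun x => SS J (fun j => a j x) fun j => b j x) x0 (δ1 + δ2 + ε) := by
  obtain ⟨F, hF⟩ : ∃ F : Finset ι, ∀ j, j ∈ F ↔ j ∈ J ∧ η ≤ b j x0 :=
    ⟨hf.toFinset, fun j => by simp⟩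
  have FJ : ↑F ⊆ J := fun j h => ((hF j).1 h).1
  have h0 : j0 ∈ F := (hF j0).2 ⟨hj, by linarith [aN j0 hj x0]⟩
  choose l hl using fun x => exists_opt ⟨j0, h0⟩ (fun j => a j x) fun j => b j x
  choose! φ hφ using ha
  choose! ψ hψ using hb
  obtain ⟨κ, κ0, hκ⟩ : ∃ κ > 0, F.card * (4 * κ) ≤ ε :=
    ⟨ε / (4 * F.card + 1), by positivity, by
      rw [show F.card * (4 * (ε / (4 * F.card + 1))) = ε * (4 * F.card / (4 * F.card + 1)) by ring]
      exact mul_le_of_le_one_right hε.le ((div_le_one (by positivity)).2 (by linarith))⟩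
  have vd : ∀ μ x y, Prob F μ → |val F μ (fun j => a j y) (fun j => b j y) -
      val F μ (fun j => a j x) fun j => b j x| ≤ 2 * ‖y - x‖ + 2 * ‖y - x‖ := fun μ x y hμ => by
    rw [val_sub]
    exact val_abs hμ (fun j hj => la j (FJ hj) x y) fun j hj => lb j (FJ hj) x y
  have loc : ∀ᶠ x in 𝓝 x0, MP_a1e890.SS J (fun j => a j x) (fun j => b j x) =
      val F (l x) (fun j => a j x) (fun j => b j x) ∧ ∀ j ∈ F, |l x j - l x0 j| ≤ κ := by
    filter_upwards [Metric.ball_mem_nhds x0 (show 0 < min (η / 2) (η * κ ^ 2 / 64) by positivity)]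
      with x hx
    rw [mem_ball_iff_norm, lt_min_iff] at hx
    refine ⟨(hl x).eq_SS FJ h0 (fun j hj => b0 j hj x) fun j h1 h2 => ?_, fun j hj => ?_⟩
    · have := not_le.1 fun e => h2 ((hF j).2 ⟨h1, e⟩)
      linarith [(abs_le.1 (lb j h1 x0 x)).2, aN j h1 x, (abs_le.1 (lN x0 x)).2,
        (abs_le.1 (la j0 hj x0 x)).1, (abs_le.1 (lb j0 hj x0 x)).1, hx.1]
    · have a1 := (hl x0).strong (hl x).1 hη.le (fun j hj => ((hF j).1 hj).2) hj
      have a2 := (hl x).2 _ (hl x0).1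
      have a3 := abs_le.1 (vd _ x0 x (hl x).1)
      have a4 := abs_le.1 (vd _ x0 x (hl x0).1)
      rw [abs_sub_comm]
      refine abs_le_of_sq_le_sq' (le_of_mul_le_mul_left ?_ hη) κ0.le |> abs_le.2
      linarith [hx.2]
  refine ⟨∑ j ∈ F, (l x0 j • φ j + gg (l x0 j) • ψ j), ?_⟩
  filter_upwards [(continuous_fst.tendsto (x0, x0)).eventually loc,
    (continuous_snd.tendsto (x0, x0)).eventually loc,
    (eventually_all_finset F).2 fun j hj => hφ j (FJ hj) ((hF j).1 hj).2,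
    (eventually_all_finset F).2 fun j hj => hψ j (FJ hj) ((hF j).1 hj).2] with p p1 p2 p3 p4 v hv s e
  have est : ∀ μ, Prob F μ → (∀ j ∈ F, |μ j - l x0 j| ≤ κ) →
      |val F μ (fun j => a j p.2) (fun j => b j p.2) - val F μ (fun j => a j p.1) (fun j => b j p.1)
        - s * (∑ j ∈ F, (l x0 j • φ j + gg (l x0 j) • ψ j)) v| ≤ (δ1 + δ2 + ε) * |s| := by
    intro μ h1 h2
    have a1 := val_near (hl x0).1 h1 h2 (fun j hj => (la j (FJ hj)).dir zero_le_two (hH v hv) e)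
      fun j hj => (lb j (FJ hj)).dir zero_le_two (hH v hv) e
    have a2 := val_abs (hl x0).1 (fun j hj => p3 j hj v hv s e) fun j hj => p4 j hj v hv s e
    have a3 : s * (∑ j ∈ F, (l x0 j • φ j + gg (l x0 j) • ψ j)) v =
        val F (l x0) (fun j => s * φ j v) fun j => s * ψ j v := by
      simp only [val, sum_apply, add_apply, smul_apply, smul_eq_mul,
        Finset.mul_sum]
      exact Finset.sum_congr rfl fun j _ => by ring
    rw [← val_sub] at a2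
    rw [val_sub, a3]
    have a4 := mul_le_mul_of_nonneg_right hκ (abs_nonneg s)
    exact (abs_sub_le _ _ _).trans (by linarith)
  have e1 := abs_le.1 (est _ (hl p.1).1 p1.2)
  have e2 := abs_le.1 (est _ (hl p.2).1 p2.2)
  have e3 := (hl p.1).2 _ (hl p.2).1
  have e4 := (hl p.2).2 _ (hl p.1).1
  rw [p1.1, p2.1]
  exact abs_le.2 ⟨by linarith [e1.1], by linarith [e2.2]⟩

theorem strict_of_Df {f : X → ℝ} (h : ∀ δ > 0, Df (Metric.closedBall 0 1) f x0 δ) :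
    ∃ φ : X →L[ℝ] ℝ, HasStrictFDerivAt f φ x0 := by
  have k : ∀ δ > 0, ∃ φ : X →L[ℝ] ℝ, ∀ᶠ p : X × X in 𝓝 (x0, x0),
      |f p.2 - f p.1 - φ (p.2 - p.1)| ≤ δ * ‖p.2 - p.1‖ := fun δ hδ => by
    refine (h δ hδ).imp fun φ hφ => hφ.mono fun p hp => ?_
    rcases eq_or_ne (p.2 - p.1) 0 with e | e
    · simp [sub_eq_zero.1 e]
    have n0 := norm_ne_zero_iff.2 e
    have := hp (‖p.2 - p.1‖⁻¹ • (p.2 - p.1)) (by simp [norm_smul, n0]) ‖p.2 - p.1‖
      (by rw [smul_inv_smul₀ n0, add_sub_cancel])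
    rwa [map_smul, smul_eq_mul, mul_inv_cancel_left₀ n0, abs_norm] at this
  choose φ hφ using fun n : ℕ => k (1 / (n + 1)) (by positivity)
  have d : ∀ n m, ‖φ n - φ m‖ ≤ 1 / (n + 1) + 1 / (m + 1) := fun n m => by
    obtain ⟨r, r0, hr⟩ := Metric.eventually_nhds_iff.1 ((Continuous.prodMk_right x0).tendsto x0
      |>.eventually ((hφ n).and (hφ m)))
    refine ContinuousLinearMap.opNorm_le_of_ball r0 (by positivity) fun v hv => ?_
    obtain ⟨a1, a2⟩ := @hr (x0 + v) (by simpa using hv)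
    simp only [add_sub_cancel_left] at a1 a2
    rw [sub_apply, Real.norm_eq_abs, abs_le]
    constructor <;> linarith [abs_le.1 a1, abs_le.1 a2]
  have t0 : Tendsto (fun n : ℕ => 1 / ((n : ℝ) + 1)) atTop (𝓝 0) :=
    tendsto_one_div_add_atTop_nhds_zero_nat
  obtain ⟨ψ, hψ⟩ := cauchySeq_tendsto_of_complete (u := φ) (cauchySeq_of_le_tendsto_0'
    (fun n : ℕ => 1 / ((n : ℝ) + 1) + 1 / ((n : ℝ) + 1)) (fun n m h => by
      rw [dist_eq_norm]
      exact (d n m).trans (add_le_add le_rfl (Nat.one_div_le_one_div h))) (by simpa using t0.add t0))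
  refine ⟨ψ, hasStrictFDerivAt_iff_isLittleO.2 (Asymptotics.isLittleO_iff.2 fun ε hε => ?_)⟩
  obtain ⟨n, n1, n2⟩ := ((t0.eventually (gt_mem_nhds (half_pos hε))).and
    ((tendsto_iff_norm_sub_tendsto_zero.1 hψ).eventually (gt_mem_nhds (half_pos hε)))).exists
  filter_upwards [(continuous_swap.tendsto (x0, x0)).eventually (hφ n)] with p hp
  simp only [Prod.snd_swap, Prod.fst_swap] at hp
  have a1 := (φ n - ψ).le_opNorm (p.1 - p.2)
  rw [sub_apply, Real.norm_eq_abs] at a1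
  rw [Real.norm_eq_abs]
  have a2 := mul_le_mul_of_nonneg_right n1.le (norm_nonneg (p.1 - p.2))
  have a3 := mul_le_mul_of_nonneg_right n2.le (norm_nonneg (p.1 - p.2))
  rw [abs_le] at hp a1 ⊢
  constructor <;> linarith [hp.1, hp.2, a1.1, a1.2]

theorem Df.of_strict {f : X → ℝ} (h : ∃ φ : X →L[ℝ] ℝ, HasStrictFDerivAt f φ x0) {δ : ℝ}
    (hδ : 0 < δ) : Df (Metric.closedBall 0 1) f x0 δ := by
  obtain ⟨φ, h⟩ := h
  refine ⟨φ, ?_⟩
  filter_upwards [(continuous_swap.tendsto (x0, x0)).eventually (h.isLittleO.bound hδ)]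
    with p hp v hv s e
  simp only [Prod.fst_swap, Prod.snd_swap, e, add_sub_cancel_left, map_smul, smul_eq_mul,
    Real.norm_eq_abs, norm_smul] at hp
  rw [e]
  exact hp.trans (mul_le_mul_of_nonneg_left
    (mul_le_of_le_one_right (abs_nonneg _) (mem_closedBall_zero_iff.1 hv)) hδ.le)

theorem c1_on {f : X → ℝ} {U : Set X} (hU : IsOpen U)
    (h : ∀ x ∈ U, ∃ φ : X →L[ℝ] ℝ, HasStrictFDerivAt f φ x) : ContDiffOn ℝ 1 f U := by
  choose! φ hφ using h
  refine fun x hx => (contDiffAt_one_iff.2 ⟨φ, U, hU.mem_nhds hx, fun x hx =>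
    ContinuousAt.continuousWithinAt (Metric.tendsto_nhds.2 fun ε hε => ?_),
    fun x hx => (hφ x hx).hasFDerivAt⟩).contDiffWithinAt
  obtain ⟨s, hs, hl⟩ := ((hφ x hx).sub (φ x).hasStrictFDerivAt).exists_lipschitzOnWith_of_nnnorm_lt
    (ε / 2).toNNReal (by simp [hε])
  filter_upwards [eventually_mem_nhds_iff.2 hs, hU.mem_nhds hx] with y hy hy'
  have := ((hφ y hy').hasFDerivAt.sub (φ x).hasFDerivAt).le_of_lipschitzOn hy hl
  rw [dist_eq_norm]
  rw [Real.coe_toNNReal _ (half_pos hε).le] at this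
  linarith

end Pool.Agent.H.MP_a1e890
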