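import Pool.Agent.H.MP_a1e890.A

set_option autoImplicit false
open Set Filter Topology Function

namespace Pool.Agent.H.MP_a1e890

variable {X : Type*} [NormedAddCommGroup X] [NormedSpace ℝ X]

/-- Functionals dominated by `f`. -/
def EE (f : X → ℝ) : Set (X →L[ℝ] ℝ) := {ψ | ∀ y, ψ y ≤ f y}

structure Ok (f : X → ℝ) : Prop where
  ev : ∀ y, f (-y) = f y
  nn : ∀ y, 0 ≤ f y
  le : ∀ y, f y ≤ ‖y‖

theorem Ok.neg {f : X → ℝ} (h : Ok f) {ψ : X →L[ℝ] ℝ} (hψ : ψ ∈ EE f) : -ψ ∈ EE f := fun y => by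
  rw [neg_apply, ← map_neg, ← h.ev]
  exact hψ _

theorem Ok.abs {f : X → ℝ} (h : Ok f) {ψ : X →L[ℝ] ℝ} (hψ : ψ ∈ EE f) (y : X) : |ψ y| ≤ f y :=
  abs_le.2 ⟨neg_le.1 (h.neg hψ y), hψ y⟩

theorem Ok.norm {f : X → ℝ} (h : Ok f) {ψ : X →L[ℝ] ℝ} (hψ : ψ ∈ EE f) : ‖ψ‖ ≤ 1 :=
  ψ.opNorm_le_bound zero_le_one fun y => by simpa using (h.abs hψ y).trans (h.le y)

theorem Ok.min {f g : X → ℝ} (h : Ok f) (h1 : ∀ y, g (-y) = g y) (h2 : ∀ y, 0 ≤ g y) :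
    Ok fun y => min (f y) (g y) :=
  ⟨fun y => by rw [h.ev, h1], fun y => le_min (h.nn y) (h2 y),
    fun y => (min_le_left _ _).trans (h.le y)⟩

theorem Ok.cpt {f : X → ℝ} (h : Ok f) :
    IsCompact {ψ : WeakDual ℝ X | WeakDual.toStrongDual ψ ∈ EE f} := by
  refine (WeakDual.isCompact_closedBall (0 : StrongDual ℝ X) 1).of_isClosed_subset ?_
    fun ψ hψ => mem_closedBall_zero_iff.2 (h.norm hψ)
  change IsClosed {ψ : WeakDual ℝ X | ∀ y, ψ y ≤ f y}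
  rw [ofPred_forall]
  exact isClosed_iInter fun y => isClosed_le (WeakDual.eval_continuous y) continuous_const

theorem Ok.max {f : X → ℝ} (h : Ok f) (x : X) : ∃ φ ∈ EE f, ∀ ψ ∈ EE f, ψ x ≤ φ x := by
  obtain ⟨φ, h1, h2⟩ := h.cpt.exists_isMaxOn ⟨0, h.nn⟩ (WeakDual.eval_continuous x).continuousOn
  exact ⟨_, h1, fun ψ hψ => h2 (show StrongDual.toWeakDual ψ ∈ _ from hψ)⟩

theorem hb (p : Seminorm ℝ X) (hp : ∀ y, p y ≤ ‖y‖) (x : X) : ∃ φ ∈ EE p, φ x = p x := by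
  rcases eq_or_ne x 0 with rfl | e
  · exact ⟨0, fun y => apply_nonneg p y, by simp⟩
  obtain ⟨g, g1, g2⟩ := exists_extension_of_le_sublinear (LinearPMap.mkSpanSingleton x (p x) e) p
    (fun c hc y => by rw [map_smul_eq_mul, Real.norm_of_nonneg hc.le]) (map_add_le_add p) (by
      rintro ⟨_, hy⟩
      obtain ⟨t, rfl⟩ := Submodule.mem_span_singleton.1 hy
      rw [LinearPMap.mkSpanSingleton'_apply, map_smul_eq_mul]
      exact mul_le_mul_of_nonneg_right (le_abs_self t) (apply_nonneg p x))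
  refine ⟨g.mkContinuous 1 fun y => by simpa using (p.abs_le_of_le g2 y).trans (hp y), g2, ?_⟩
  exact (g1 ⟨x, Submodule.mem_span_singleton_self x⟩).trans
    (LinearPMap.mkSpanSingleton'_apply_self _ _ _ _)

theorem smul_test {H : Set (X →L[ℝ] ℝ)} {q : X → ℝ} {x : X} {Φ : X →L[ℝ] ℝ}
    (h0 : ∀ h ∈ H, ‖h‖ ≤ 1) (h1 : ∀ h ∈ H, ∀ y, h y ≤ q y) (h2 : ∀ y, ∃ h ∈ H, q y ≤ h y)
    (h3 : ∀ δ > 0, ∃ η > 0, ∀ h ∈ H, q x - η ≤ h x → ‖h - Φ‖ ≤ δ) : HasStrictFDerivAt q Φ x := by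
  refine hasStrictFDerivAt_iff_isLittleO.2 (Asymptotics.isLittleO_iff.2 fun δ hδ => ?_)
  obtain ⟨η, η0, h3⟩ := h3 δ hδ
  have k : ∀ z ∈ Metric.ball x (η / 2), ∀ y, q z - q y - Φ (z - y) ≤ δ * ‖z - y‖ := fun z hz y => by
    obtain ⟨h, a1, a2⟩ := h2 z
    obtain ⟨g, b1, b2⟩ := h2 x
    have c1 := abs_le.1 (h.le_of_opNorm_le (h0 h a1) (z - x))
    have c2 := abs_le.1 (g.le_of_opNorm_le (h0 g b1) (z - x))
    rw [mem_ball_iff_norm] at hz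
    rw [map_sub] at c1 c2
    have c3 := abs_le.1 ((h - Φ).le_of_opNorm_le (h3 h a1 (by linarith [h1 g b1 z])) (z - y))
    rw [sub_apply, map_sub h] at c3
    linarith [h1 h a1 y]
  have n := Metric.ball_mem_nhds x (half_pos η0)
  filter_upwards [prod_mem_nhds n n] with p hp
  have a := k p.2 hp.2 p.1
  rw [← neg_sub p.1, map_neg, norm_neg] at a
  exact abs_le.2 ⟨by linarith, k p.1 hp.1 p.2⟩

theorem exists_G {E : Set (X →L[ℝ] ℝ)} (hs : TopologicalSpace.IsSeparable E) (h0 : 0 ∈ E)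
    (h1 : ∀ ψ ∈ E, ‖ψ‖ ≤ 1) : ∃ G : (X →L[ℝ] ℝ) → ℝ, (∀ ψ, 0 ≤ G ψ) ∧ (∀ ψ ∈ E, G ψ ≤ 1) ∧
      (∀ ψ, G (-ψ) = G ψ) ∧ LowerSemicontinuous (fun ψ : WeakDual ℝ X => G ψ.toStrongDual) ∧
      ∀ φ ∈ E, ∀ δ > 0, ∃ η > 0, ∀ ψ, G φ + G ψ - 2 * G ((1 / 2 : ℝ) • (φ + ψ)) ≤ η →
        ‖ψ - φ‖ ≤ δ := by
  obtain ⟨D, d1, d2, d3⟩ := hs.exists_countable_dense_subset
  obtain ⟨u, rfl⟩ := d2.exists_eq_range (closure_nonempty_iff.1 ⟨_, d3 h0⟩)
  have u1 : ∀ n, ‖u n‖ ≤ 1 := fun n => h1 _ (d1 ⟨n, rfl⟩)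
  obtain ⟨t, ht⟩ : ∃ t : (X →L[ℝ] ℝ) → ℕ → ℝ, ∀ ψ n, t ψ n =
    (1 / 2) ^ n / 16 * ‖ψ - u n‖ ^ 2 + (1 / 2) ^ n / 16 * ‖ψ - -u n‖ ^ 2 := ⟨_, fun _ _ => rfl⟩
  have t0 : ∀ ψ n, 0 ≤ t ψ n := fun ψ n => by rw [ht]; positivity
  have t1 : ∀ ψ n, t ψ n ≤ (‖ψ‖ + 1) ^ 2 / 8 * (1 / 2) ^ n := fun ψ n => by
    have a := pow_le_pow_left₀ (norm_nonneg _) ((norm_sub_le ψ (u n)).trans
      (add_le_add le_rfl (u1 n))) 2
    have b := pow_le_pow_left₀ (norm_nonneg _) ((norm_sub_le ψ (-u n)).trans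
      (add_le_add le_rfl ((norm_neg _).trans_le (u1 n)))) 2
    rw [ht]
    nlinarith [pow_pos (show (0 : ℝ) < 1 / 2 by norm_num) n]
  have t2 : ∀ ψ, Summable (t ψ) := fun ψ =>
    .of_nonneg_of_le (t0 ψ) (t1 ψ) (summable_geometric_two.mul_left _)
  have lsc : ∀ (v : X →L[ℝ] ℝ) (c : ℝ), 0 ≤ c →
      LowerSemicontinuous fun ψ : WeakDual ℝ X => c * ‖ψ.toStrongDual - v‖ ^ 2 := fun v c hc => by
    have := Continuous.comp_lowerSemicontinuous (g := fun r : ℝ => c * max r 0 ^ 2) (by fun_prop)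
      (f := fun ψ : WeakDual ℝ X => ‖ψ.toStrongDual - v‖)
      (lowerSemicontinuous_iff_isClosed_preimage.2 fun r => by
        convert WeakDual.isClosed_closedBall v r using 1
        ext ψ
        exact mem_closedBall_iff_norm.symm)
      fun r s e => mul_le_mul_of_nonneg_left
        (pow_le_pow_left₀ (le_max_right _ _) (max_le_max_right 0 e) 2) hc
    simpa [comp_def] using this
  have gap : ∀ a b v : X →L[ℝ] ℝ, (‖a - v‖ - ‖b - v‖) ^ 2 / 2 ≤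
      ‖a - v‖ ^ 2 + ‖b - v‖ ^ 2 - 2 * ‖(1 / 2 : ℝ) • (a + b) - v‖ ^ 2 := fun a b v => by
    have : ‖(1 / 2 : ℝ) • (a + b) - v‖ ≤ (‖a - v‖ + ‖b - v‖) / 2 := by
      rw [show (1 / 2 : ℝ) • (a + b) - v = (1 / 2 : ℝ) • (a - v + (b - v)) by module, norm_smul,
        Real.norm_of_nonneg (by norm_num)]
      linarith [norm_add_le (a - v) (b - v)]
    nlinarith [pow_le_pow_left₀ (norm_nonneg _) this 2]
  refine ⟨fun ψ => ∑' n, t ψ n, fun ψ => tsum_nonneg (t0 ψ), fun ψ hψ => ?_, fun ψ => ?_,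
    lowerSemicontinuous_iff_isClosed_preimage.2 fun r => ?_, fun φ hφ δ hδ => ?_⟩
  · refine ((t2 ψ).tsum_le_tsum (t1 ψ) (summable_geometric_two.mul_left _)).trans ?_
    rw [tsum_mul_left, tsum_geometric_two]
    nlinarith [h1 ψ hψ, norm_nonneg ψ]
  · refine tsum_congr fun n => ?_
    rw [ht, ht, add_comm, neg_sub_neg, norm_sub_rev (u n), ← norm_neg (-ψ - u n)]
    congr 4
    abel
  · convert isClosed_iInter fun N : ℕ => lowerSemicontinuous_iff_isClosed_preimage.1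
      (lowerSemicontinuous_sum (a := Finset.range N)
        (f := fun n (ψ : WeakDual ℝ X) => t ψ.toStrongDual n) fun n _ => by
          simp only [ht]
          exact (lsc _ _ (by positivity)).add (lsc _ _ (by positivity))) r using 1
    ext ψ
    rw [mem_iInter]
    exact ⟨fun h N => ((t2 _).sum_le_tsum _ fun n _ => t0 _ n).trans h,
      Real.tsum_le_of_sum_range_le (t0 _)⟩
  · obtain ⟨_, ⟨n, rfl⟩, hn⟩ := Metric.mem_closure_iff.1 (d3 hφ) (δ / 3) (by positivity)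
    refine ⟨(1 / 2) ^ n / 16 * ((δ / 3) ^ 2 / 2), by positivity, fun ψ hψ => ?_⟩
    have g0 : ∀ k, (1 / 2) ^ k / 16 * ((‖φ - u k‖ - ‖ψ - u k‖) ^ 2 / 2) ≤
        t φ k + t ψ k - 2 * t ((1 / 2 : ℝ) • (φ + ψ)) k := fun k => by
      have p : (0 : ℝ) ≤ (1 / 2) ^ k / 16 := by positivity
      have a := mul_le_mul_of_nonneg_left (gap φ ψ (u k)) p
      have b := mul_nonneg p (le_trans (by positivity) (gap φ ψ (-u k)))
      simp only [ht]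
      linarith
    have s := ((t2 φ).hasSum.add (t2 ψ).hasSum).sub ((t2 ((1 / 2 : ℝ) • (φ + ψ))).hasSum.mul_left 2)
    have a := le_of_mul_le_mul_left ((g0 n).trans ((le_hasSum s n fun k _ =>
      le_trans (by positivity) (g0 k)).trans hψ)) (by positivity)
    have b := abs_le_of_sq_le_sq' (show (‖φ - u n‖ - ‖ψ - u n‖) ^ 2 ≤ (δ / 3) ^ 2 by linarith)
      (by positivity)
    rw [dist_eq_norm] at hn
    linarith [norm_sub_le_norm_sub_add_norm_sub ψ (u n) φ, norm_sub_rev φ (u n), b.1]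

theorem smo {f : X → ℝ} (hf : Ok f) (hs : TopologicalSpace.IsSeparable (EE f)) {w : ℝ}
    (w0 : 0 < w) (w1 : w ≤ 1) : ∃ q : Seminorm ℝ X, (∀ ψ ∈ EE f, ∀ x, ψ x ≤ (1 + w) * q x) ∧
      (∀ x, ∃ ψ ∈ EE f, q x ≤ ψ x) ∧ ∀ x, 0 < q x → ∃ Φ : X →L[ℝ] ℝ, HasStrictFDerivAt q Φ x := by
  obtain ⟨G, g0, g1, g2, g3, g4⟩ := exists_G hs hf.nn fun _ => hf.norm
  have p1 : ∀ ψ, 1 ≤ 1 + w * G ψ := fun ψ => by nlinarith [g0 ψ]
  have p0 : ∀ ψ, 0 < 1 + w * G ψ := fun ψ => one_pos.trans_le (p1 ψ)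
  have p2 : ∀ ψ ∈ EE f, 1 + w * G ψ ≤ 1 + w := fun ψ h => by nlinarith [g1 ψ h]
  have ex : ∀ x, ∃ φ ∈ EE f, 0 ≤ φ x ∧ ∀ ψ ∈ EE f,
      (1 + w * G ψ)⁻¹ * ψ x ≤ (1 + w * G φ)⁻¹ * φ x := fun x => by
    obtain ⟨r, hr⟩ := Real.exists_isLUB (s := (fun ψ => (1 + w * G ψ)⁻¹ * ψ x) '' EE f)
      ⟨_, 0, hf.nn, rfl⟩ ⟨‖x‖, by
        rintro _ ⟨ψ, h, rfl⟩
        rw [inv_mul_le_iff₀ (p0 ψ)]
        nlinarith [h x, hf.le x, p1 ψ, norm_nonneg x]⟩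
    have r0 : 0 ≤ r := by simpa using hr.1 ⟨0, hf.nn, rfl⟩
    obtain ⟨φ, f1, f2⟩ := LowerSemicontinuousOn.exists_isMinOn
      (s := {ψ : WeakDual ℝ X | WeakDual.toStrongDual ψ ∈ EE f}) ⟨0, hf.nn⟩ hf.cpt
      (f := fun ψ => r * (1 + w * G ψ.toStrongDual) + -ψ x)
      (((Continuous.comp_lowerSemicontinuous (g := fun s : ℝ => r * (1 + w * s)) (by fun_prop) g3
        fun s t e => by dsimp only; gcongr).add
        (WeakDual.eval_continuous x).neg.lowerSemicontinuous).lowerSemicontinuousOn _)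
    have k : r * (1 + w * G φ.toStrongDual) ≤ φ.toStrongDual x :=
      le_of_forall_pos_le_add fun η hη => by
        obtain ⟨_, ⟨ψ, h, rfl⟩, e, -⟩ := hr.exists_between (show r - η / 2 < r by linarith)
        have a : r * (1 + w * G φ.toStrongDual) + -φ.toStrongDual x ≤ r * (1 + w * G ψ) + -ψ x :=
          f2 (show StrongDual.toWeakDual ψ ∈ _ from h)
        rw [lt_inv_mul_iff₀ (p0 ψ)] at e
        nlinarith [p2 ψ h]
    exact ⟨_, f1, le_trans (mul_nonneg r0 (p0 _).le) k, fun ψ h => (hr.1 ⟨ψ, h, rfl⟩).trans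
      ((le_inv_mul_iff₀ (p0 _)).2 ((mul_comm _ _).trans_le k))⟩
  choose φ f1 f2 f3 using ex
  obtain ⟨Q, hQ⟩ : ∃ Q : X → ℝ, ∀ x, Q x = (1 + w * G (φ x))⁻¹ * φ x x := ⟨_, fun _ => rfl⟩
  simp only [← hQ] at f3
  have q0 : ∀ x, 0 ≤ Q x := fun x => by simpa using f3 x 0 hf.nn
  refine ⟨Seminorm.ofSMulLE Q (by simp [hQ]) (fun x y => ?_) fun r x => ?_, fun ψ h x => ?_,
    fun x => ⟨φ x, f1 x, ?_⟩, fun x (hx : 0 < Q x) => ⟨(1 + w * G (φ x))⁻¹ • φ x, ?_⟩⟩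
  · rw [hQ, map_add, mul_add]
    exact add_le_add (f3 x _ (f1 _)) (f3 y _ (f1 _))
  · have a := f3 x _ (hf.neg (f1 (r • x)))
    rw [g2, neg_apply, mul_neg] at a
    rw [hQ, map_smul, smul_eq_mul, mul_left_comm]
    exact (le_abs_self _).trans ((abs_mul _ _).trans_le (mul_le_mul_of_nonneg_left
      (abs_le.2 ⟨by linarith, f3 x _ (f1 _)⟩) (abs_nonneg r)))
  · exact ((inv_mul_le_iff₀ (p0 ψ)).1 (f3 x ψ h)).trans (mul_le_mul_of_nonneg_right (p2 ψ h) (q0 x))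
  · change Q x ≤ _
    rw [hQ, inv_mul_le_iff₀ (p0 _)]
    nlinarith [p1 (φ x), f2 x]
  refine smul_test (q := Q) (H := (fun ψ => (1 + w * G ψ)⁻¹ • ψ) '' EE f) ?_ ?_
    (fun y => ⟨_, ⟨φ y, f1 y, rfl⟩, (hQ y).le⟩) fun δ hδ => ?_
  · rintro _ ⟨ψ, h, rfl⟩
    rw [norm_smul, Real.norm_of_nonneg (inv_pos.2 (p0 ψ)).le, inv_mul_le_iff₀ (p0 ψ)]
    linarith [hf.norm h, p1 ψ]
  · rintro _ ⟨ψ, h, rfl⟩ y
    exact f3 y ψ h
  obtain ⟨δ', d0, d1⟩ : ∃ δ' > 0, δ' * (Q x + 1 + ‖x‖) ≤ δ * Q x :=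
    ⟨δ * Q x / (Q x + 1 + ‖x‖), by positivity, by rw [div_mul_cancel₀]; positivity⟩
  obtain ⟨η, η0, g5⟩ := g4 _ (f1 x) δ' d0
  refine ⟨min δ' (Q x * w * η / 2), by positivity, ?_⟩
  rintro _ ⟨ψ, h, rfl⟩ e
  rw [smul_apply, smul_eq_mul] at e
  have e1 := (le_inv_mul_iff₀ (p0 ψ)).1 ((sub_le_sub_left (min_le_right _ _) _).trans e)
  have e2 := (sub_le_sub_left (min_le_left _ _) _).trans e
  have e3 : φ x x = (1 + w * G (φ x)) * Q x := by rw [hQ, mul_inv_cancel_left₀ (p0 _).ne']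
  have e4 := (inv_mul_le_iff₀ (p0 _)).1 (f3 x ((1 / 2 : ℝ) • (φ x + ψ)) fun y => by
    rw [smul_apply, add_apply, smul_eq_mul]
    linarith [f1 x y, h y])
  rw [smul_apply, add_apply, smul_eq_mul] at e4
  have e5 := g5 ψ (le_of_mul_le_mul_left (a := Q x * w) (by
    nlinarith [mul_le_mul_of_nonneg_right (show 1 + w * G ψ ≤ 2 by linarith [p2 ψ h])
      (show 0 ≤ Q x * w * η / 2 by positivity)]) (by positivity))
  have e6 := f3 x ψ h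
  have i1 := inv_le_one_of_one_le₀ (p1 ψ)
  have i0 := (inv_pos.2 (p0 ψ)).le
  have n1 := hf.norm (f1 x)
  have e7 := (ψ - φ x).le_of_opNorm_le e5 x
  have e8 : Q x ≤ φ x x := by nlinarith [p1 (φ x)]
  rw [hQ] at e2 e6
  dsimp only
  generalize (1 + w * G ψ)⁻¹ = t at *
  generalize (1 + w * G (φ x))⁻¹ = s at *
  have e9 : |t * (ψ - φ x) x| ≤ δ' * ‖x‖ := by
    rw [abs_mul, abs_of_nonneg i0]
    exact (mul_le_of_le_one_left (abs_nonneg _) i1).trans e7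
  rw [sub_apply, mul_sub, abs_le] at e9
  have b1 : |t - s| * Q x ≤ δ' + δ' * ‖x‖ := by
    refine (mul_le_mul_of_nonneg_left e8 (abs_nonneg _)).trans ?_
    rw [← abs_of_nonneg (f2 x), ← abs_mul, sub_mul]
    exact abs_le.2 ⟨by linarith [e9.2], by linarith [e9.1]⟩
  rw [show t • ψ - s • φ x = t • (ψ - φ x) + (t - s) • φ x by module]
  refine (norm_add_le _ _).trans (le_of_mul_le_mul_right ?_ hx)
  rw [norm_smul, norm_smul, Real.norm_of_nonneg i0, Real.norm_eq_abs]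
  have b2 := (mul_le_of_le_one_left (norm_nonneg _) i1).trans e5
  have b3 := mul_le_of_le_one_right (abs_nonneg (t - s)) n1
  nlinarith [mul_le_mul_of_nonneg_right (add_le_add b2 b3) hx.le]

theorem semi_lp (p : Seminorm ℝ X) (h : ∀ y, p y ≤ ‖y‖) : Lp p 2 := fun x y =>
  ((p.norm_sub_map_le_sub y x).trans (h _)).trans (by linarith [norm_nonneg (y - x)])

theorem mainT {Γ : Type*} [Nonempty Γ] {f : Γ → X → ℝ} (hf : ∀ γ, Ok (f γ))
    (hs : ∀ γ, TopologicalSpace.IsSeparable (EE (f γ))) {N : X → ℝ} (lN : Lp N 1)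
    (hN : ∀ γ, ∀ ψ ∈ EE (f γ), ∀ x, ψ x ≤ N x) {d : Γ → Seminorm ℝ X} (d1 : ∀ γ y, d γ y ≤ ‖y‖)
    (d2 : ∀ x, ∀ θ > 0, {γ | θ ≤ d γ x}.Finite)
    (d3 : ∀ γ x, 0 < d γ x → (∃ Φ : X →L[ℝ] ℝ, HasStrictFDerivAt (d γ) Φ x) ∧ ∃ ψ ∈ EE (f γ), 0 < ψ x)
    (top : ∀ x, 0 < N x → ∃ γ, 0 < d γ x ∧ ∃ ψ ∈ EE (f γ), N x ≤ ψ x) {ε : ℝ} (e0 : 0 < ε)
    (e1 : ε ≤ 1) : ∃ q : Seminorm ℝ X, (∀ x, N x ≤ q x) ∧
      (∀ x R, (∀ γ, d γ x ≤ R) → q x ≤ N x + ε * R) ∧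
      ∀ x, 0 < N x → ∃ Φ : X →L[ℝ] ℝ, HasStrictFDerivAt q Φ x := by
  choose a a1 a2 a3 using fun j : Γ × ℕ => smo (hf j.1) (hs j.1) (w := (1 / 4) ^ j.2)
    (by positivity) (pow_le_one₀ (by norm_num) (by norm_num))
  have aN : ∀ j x, a j x ≤ N x := fun j x => by
    obtain ⟨ψ, h1, h2⟩ := a2 j x
    exact h2.trans (hN _ ψ h1 x)
  have an : ∀ j x, a j x ≤ ‖x‖ := fun j x => by
    obtain ⟨ψ, h1, h2⟩ := a2 j x
    exact h2.trans ((h1 x).trans ((hf _).le x))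
  obtain ⟨c, hc⟩ : ∃ c : ℕ → NNReal, ∀ m, (c m : ℝ) = ε * (1 / 2) ^ m :=
    ⟨fun m => ⟨ε * (1 / 2) ^ m, by positivity⟩, fun _ => rfl⟩
  obtain ⟨b, hb⟩ : ∃ b : Γ × ℕ → Seminorm ℝ X, ∀ j x, b j x = ε * (1 / 2) ^ j.2 * d j.1 x :=
    ⟨fun j => c j.2 • d j.1, fun j x => by rw [← hc]; rfl⟩
  have h2 : ∀ m, (1 / 2 : ℝ) ^ m ≤ 1 := fun m => pow_le_one₀ (by norm_num) (by norm_num)
  have bd : ∀ j x, b j x ≤ ε * d j.1 x := fun j x => by
    rw [hb, mul_assoc]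
    exact mul_le_mul_of_nonneg_left (mul_le_of_le_one_left (apply_nonneg _ _) (h2 _)) e0.le
  have bd' : ∀ j x, b j x ≤ d j.1 x := fun j x =>
    (bd j x).trans (mul_le_of_le_one_left (apply_nonneg _ _) e1)
  have bR : ∀ x R, (∀ γ, d γ x ≤ R) → ∀ j ∈ (univ : Set (Γ × ℕ)), ∀ γ ∈ Icc (0 : ℝ) 1,
      a j x + γ * b j x ≤ N x + ε * R := fun x R h j _ γ hγ => add_le_add (aN j x)
    ((mul_le_of_le_one_left (apply_nonneg _ _) hγ.2).trans ((bd j x).trans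
      (mul_le_mul_of_nonneg_left (h _) e0.le)))
  have bx := fun x => bR x _ fun γ => d1 γ x
  have tp : ∀ x, 0 < N x → ∃ j, N x < a j x + b j x / 2 := fun x hx => by
    obtain ⟨γ, g1, ψ, g2, g3⟩ := top x hx
    obtain ⟨m, hm⟩ := exists_pow_lt_of_lt_one (show 0 < ε * d γ x / 2 / N x by positivity)
      (show (1 / 2 : ℝ) < 1 by norm_num)
    refine ⟨(γ, m), ?_⟩
    have k1 := a1 (γ, m) ψ g2 x
    have k2 := mul_le_mul_of_nonneg_left (aN (γ, m) x) (show 0 ≤ (1 / 4 : ℝ) ^ m by positivity)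
    have k3 := mul_lt_mul_of_pos_left ((lt_div_iff₀ hx).1 hm) (show 0 < (1 / 2 : ℝ) ^ m by positivity)
    rw [← mul_assoc, ← mul_pow, show (1 / 2 * (1 / 2) : ℝ) = 1 / 4 by norm_num] at k3
    rw [hb]
    dsimp only at k1 ⊢
    linarith
  have gn : ∀ (s : Finset (Γ × ℕ)) l, Prob s l → ∀ j ∈ s, 0 ≤ gg (l j) := fun s l h j hj =>
    mul_nonneg (h.1 j hj) (by linarith [h.le_one hj])
  have vm : ∀ s l (r : ℝ) x, val s l (fun j => a j (r • x)) (fun j => b j (r • x)) =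
      ‖r‖ * val s l (fun j => a j x) fun j => b j x := fun s l r x => by
    simp only [val, map_smul_eq_mul, Finset.mul_sum]
    exact Finset.sum_congr rfl fun j _ => by ring
  refine ⟨Seminorm.ofSMulLE (fun x => SS univ (fun j => a j x) fun j => b j x)
    (le_antisymm (SS_le univ_nonempty fun s l _ _ => by simp [val]) (by
      simpa using single_le_SS (bx 0) (mem_univ (Classical.arbitrary _))))
    (fun x y => SS_le univ_nonempty fun s l h1 h2 => ?_)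
    fun r x => SS_le univ_nonempty fun s l h1 h2 => ?_, fun x => ?_,
    fun x R h => SS_le univ_nonempty fun s l _ h2 => val_le h2 fun j _ => bR x R h j trivial,
    fun x hx => strict_of_Df fun δ hδ => ?_⟩
  · refine le_trans ?_ (add_le_add (le_SS (bx x) h1 h2) (le_SS (bx y) h1 h2))
    unfold val
    rw [← Finset.sum_add_distrib]
    refine Finset.sum_le_sum fun j hj => ?_
    linarith [mul_le_mul_of_nonneg_left (map_add_le_add (a j) x y) (h2.1 j hj),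
      mul_le_mul_of_nonneg_left (map_add_le_add (b j) x y) (gn s l h2 j hj)]
  · rw [vm]
    exact mul_le_mul_of_nonneg_left (le_SS (bx x) h1 h2) (norm_nonneg _)
  · rcases le_or_gt (N x) 0 with e | e
    · exact e.trans (apply_nonneg _ _)
    · obtain ⟨j, hj⟩ := tp x e
      exact le_trans (by linarith [apply_nonneg (b j) x]) (single_le_SS (bx x) (mem_univ j))
  obtain ⟨j0, hj⟩ := tp x hx
  have η0 : 0 < (a j0 x + b j0 x / 2 - N x) / 4 := by linarith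
  obtain ⟨M, hM⟩ := exists_pow_lt_of_lt_one (div_pos η0 (show 0 < ‖x‖ + 1 by positivity))
    (show (1 / 2 : ℝ) < 1 by norm_num)
  refine (show δ / 3 + δ / 3 + δ / 3 = δ by ring) ▸ Df.SS (fun _ => mem_closedBall_zero_iff.1)
    (fun j _ => semi_lp _ (an j)) (fun j _ => semi_lp _ fun y => (bd' j y).trans (d1 _ y)) lN
    (fun j _ y => apply_nonneg _ y) (fun j _ => aN j) (mem_univ j0) η0 (by linarith)
    (((d2 x _ η0).prod (finite_Iio M)).subset fun j hj => ⟨hj.2.trans (bd' j x), mem_Iio.2 (not_le.1 fun e => ?_)⟩)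
    (fun j _ e => .of_strict (a3 j x ?_) (by positivity))
    (fun j _ e => .of_strict ?_ (by positivity)) (by positivity)
  · have k := hj.2.trans_eq (hb j x)
    rw [lt_div_iff₀ (by positivity)] at hM
    have := pow_le_pow_of_le_one (show (0 : ℝ) ≤ 1 / 2 by norm_num) (by norm_num) e
    have p : (0 : ℝ) < (1 / 2) ^ j.2 := by positivity
    have k2 := mul_le_mul (mul_le_of_le_one_left p.le e1) (d1 j.1 x) (apply_nonneg _ _) p.le
    have k3 := mul_le_mul_of_nonneg_right this (norm_nonneg x)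
    linarith [p.trans_le this]
  · obtain ⟨ψ, g1, g2⟩ := (d3 j.1 x (η0.trans_le (e.trans (bd' j x)))).2
    exact (pos_iff_pos_of_mul_pos (g2.trans_le (a1 j ψ g1 x))).1 (by positivity)
  · obtain ⟨Φ, h⟩ := (d3 j.1 x (η0.trans_le (e.trans (bd' j x)))).1
    exact ⟨_, (show (b j : X → ℝ) = _ from funext (hb j)) ▸ h.const_mul _⟩

end Pool.Agent.H.MP_a1e890
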