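import Pool.Agent.H.MP_a1e890.B

set_option autoImplicit false
open Set Filter Topology Function
open scoped BoundedContinuousFunction
open BoundedContinuousFunction (norm_le compContinuousCLM evalCLM norm_compContinuous_le)

namespace Pool.Agent.H.MP_a1e890

variable {I : Type*} [LinearOrder I] [WellFoundedLT I] [OrderTop I] [TopologicalSpace I]
  [OrderTopology I]

omit [TopologicalSpace I] [OrderTopology I] in
theorem ex_succ {α : I} (h : α < ⊤) : ∃ β, α < β ∧ ∀ a, α < a → β ≤ a := by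
  obtain ⟨m, m1, m2⟩ := WellFounded.has_min wellFounded_lt (Ioi α) ⟨_, h⟩
  exact ⟨m, m1, fun a e => not_lt.1 (m2 a e)⟩

theorem clo (α : I) : IsClopen (Iic α) := by
  refine ⟨isClosed_Iic, ?_⟩
  rcases (le_top (a := α)).eq_or_lt with rfl | h
  · simp
  · obtain ⟨m, m1, m2⟩ := ex_succ h
    rw [show Iic α = Iio m from Set.ext fun a =>
      ⟨fun c => lt_of_le_of_lt c m1, fun c => not_lt.1 fun d => not_le.2 c (m2 a d)⟩]
    exact isOpen_Iio

theorem cpt : CompactSpace I := ⟨isCompact_iff_ultrafilter_le_nhds.2 fun f _ => by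
  obtain ⟨b, b1, b2⟩ := WellFounded.has_min wellFounded_lt {b : I | Iic b ∈ f}
    ⟨⊤, mem_of_superset univ_mem fun _ _ => le_top⟩
  refine ⟨b, trivial, (tendsto_order (f := id)).2 ⟨fun c hc => ?_, fun c hc => ?_⟩⟩
  · exact mem_of_superset (Ultrafilter.compl_mem_iff_notMem.2 fun h => b2 c h hc)
      fun a ha => not_le.1 ha
  · exact mem_of_superset b1 fun a ha => lt_of_le_of_lt ha hc⟩

/-- Keep the values up to `α`, and put the value at the top beyond. -/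
noncomputable def P (α : I) : (I →ᵇ ℝ) →L[ℝ] (I →ᵇ ℝ) :=
  compContinuousCLM ℝ ℝ ⟨fun a => if a ≤ α then a else ⊤, Continuous.if
    (fun a ha => absurd ((clo α).frontier_eq ▸ ha) (notMem_empty a)) continuous_id continuous_const⟩

theorem P_le {α a : I} (h : a ≤ α) (x : I →ᵇ ℝ) : P α x a = x a := congrArg x (if_pos h)

theorem P_gt {α a : I} (h : α < a) (x : I →ᵇ ℝ) : P α x a = x ⊤ := congrArg x (if_neg h.not_ge)

theorem P_top (α : I) (x : I →ᵇ ℝ) : P α x ⊤ = x ⊤ := congrArg x (ite_self _)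

theorem P_norm (α : I) (x : I →ᵇ ℝ) : ‖P α x‖ ≤ ‖x‖ := norm_compContinuous_le _ _

theorem P_eq {α : I} {x : I →ᵇ ℝ} (h : ∀ a, α < a → x a = x ⊤) : P α x = x := by
  ext a
  rcases le_or_gt a α with e | e
  · exact P_le e x
  · rw [P_gt e, h a e]

theorem P_P {α β : I} (h : α ≤ β) (x : I →ᵇ ℝ) : P β (P α x) = P α x :=
  P_eq fun a e => by rw [P_gt (h.trans_lt e), P_top]

noncomputable def chi (α : I) : I →ᵇ ℝ := .indicator (Iic α) (clo α)

theorem chi_le {α a : I} (h : a ≤ α) : chi α a = 1 := indicator_of_mem (mem_Iic.2 h) _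

theorem chi_gt {α a : I} (h : α < a) : chi α a = 0 := indicator_of_notMem (notMem_Iic.2 h) _

noncomputable def dl (a : I) : (I →ᵇ ℝ) →L[ℝ] ℝ := evalCLM ℝ a

omit [LinearOrder I] [WellFoundedLT I] [OrderTop I] [OrderTopology I] in
theorem dl_ap (a : I) (x : I →ᵇ ℝ) : dl a x = x a := rfl

omit [LinearOrder I] [WellFoundedLT I] [OrderTop I] [OrderTopology I] in
theorem ab (x : I →ᵇ ℝ) (a : I) : |x a| ≤ ‖x‖ := x.norm_coe_le_norm a

omit [LinearOrder I] [WellFoundedLT I] [OrderTop I] [OrderTopology I] in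
theorem ab2 (x : I →ᵇ ℝ) (a b : I) : |x a - x b| ≤ 2 * ‖x‖ := by
  linarith [abs_sub (x a) (x b), ab x a, ab x b]

omit [WellFoundedLT I] [OrderTop I] in
theorem near (x : I →ᵇ ℝ) {η : I} (h : ∃ a, a < η) {ε : ℝ} (hε : 0 < ε) :
    ∃ α < η, ∀ a, α < a → a ≤ η → |x a - x η| < ε := by
  obtain ⟨l, l1, l2⟩ := exists_Ioc_subset_of_mem_nhds (a := η)
    ((isOpen_lt (x.continuous.sub continuous_const).abs continuous_const).mem_nhds
      (show |x η - x η| < ε by simpa using hε)) h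
  exact ⟨l, l1, fun a e f => l2 ⟨e, f⟩⟩

theorem P_sub {α β : I} (h : α ≤ β) (x : I →ᵇ ℝ) {R : ℝ} (h0 : 0 ≤ R)
    (hR : ∀ a, α < a → a ≤ β → |x a - x ⊤| ≤ R) : ‖P β x - P α x‖ ≤ R ∧
      ∀ a, (a ≤ α ∨ β < a) → (P β x - P α x) a = 0 := by
  have k : ∀ a, (a ≤ α ∨ β < a) → (P β x - P α x) a = 0 := by
    rintro a (e | e)
    · rw [BoundedContinuousFunction.sub_apply, P_le e, P_le (e.trans h), sub_self]
    · rw [BoundedContinuousFunction.sub_apply, P_gt e, P_gt (h.trans_lt e), sub_self]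
  refine ⟨(norm_le h0).2 fun a => ?_, k⟩
  by_cases e : a ≤ α ∨ β < a
  · rwa [k a e, norm_zero]
  · push Not at e
    rw [BoundedContinuousFunction.sub_apply, P_le e.2, P_gt e.1]
    exact hR a e.1 e.2

/-- Variation of `φ` up to `α`. -/
noncomputable def W (φ : (I →ᵇ ℝ) →L[ℝ] ℝ) (α : I) : ℝ :=
  sSup (φ '' {z | ‖z‖ ≤ 1 ∧ ∀ a, α < a → z a = 0})

omit [WellFoundedLT I] [OrderTop I] [OrderTopology I] in
theorem le_W (φ : (I →ᵇ ℝ) →L[ℝ] ℝ) {α : I} {z : I →ᵇ ℝ} (h : ‖z‖ ≤ 1)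
    (h' : ∀ a, α < a → z a = 0) : φ z ≤ W φ α :=
  le_csSup ⟨‖φ‖, by
    rintro _ ⟨y, hy, rfl⟩
    exact (le_abs_self _).trans (φ.unit_le_opNorm y hy.1)⟩ ⟨z, ⟨h, h'⟩, rfl⟩

omit [WellFoundedLT I] [OrderTop I] [OrderTopology I] in
theorem W_le {φ : (I →ᵇ ℝ) →L[ℝ] ℝ} {α : I} {R : ℝ}
    (h : ∀ z, ‖z‖ ≤ 1 → (∀ a, α < a → z a = 0) → φ z ≤ R) : W φ α ≤ R :=
  csSup_le ⟨_, 0, ⟨by simp, fun _ _ => rfl⟩, rfl⟩ (by
    rintro _ ⟨y, hy, rfl⟩
    exact h y hy.1 hy.2)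

omit [WellFoundedLT I] [OrderTop I] [OrderTopology I] in
theorem W_norm (φ : (I →ᵇ ℝ) →L[ℝ] ℝ) (α : I) : W φ α ≤ ‖φ‖ :=
  W_le fun z h _ => (le_abs_self _).trans (φ.unit_le_opNorm z h)

omit [WellFoundedLT I] [OrderTop I] [OrderTopology I] in
theorem W_mono (φ : (I →ᵇ ℝ) →L[ℝ] ℝ) : Monotone (W φ) := fun _ _ e =>
  W_le fun _ h h' => le_W φ h fun a f => h' a (e.trans_lt f)

omit [WellFoundedLT I] [OrderTop I] [OrderTopology I] in
theorem W_key (φ : (I →ᵇ ℝ) →L[ℝ] ℝ) {α β : I} (h : α ≤ β) {w : I →ᵇ ℝ}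
    (hw : ∀ a, (a ≤ α ∨ β < a) → w a = 0) : |φ w| ≤ (W φ β - W φ α) * ‖w‖ := by
  have k : ∀ w : I →ᵇ ℝ, (∀ a, (a ≤ α ∨ β < a) → w a = 0) → ‖w‖ ≤ 1 →
      W φ α ≤ W φ β - φ w := fun w h1 h2 => W_le fun z z1 z2 => by
    rw [le_sub_iff_add_le, ← map_add]
    refine le_W φ ((norm_le zero_le_one).2 fun a => ?_) fun a e => ?_
    · rw [BoundedContinuousFunction.add_apply]
      rcases le_or_gt a α with e | e
      · rw [h1 a (.inl e), add_zero]
        exact (ab z a).trans z1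
      · rw [z2 a e, zero_add]
        exact (ab w a).trans h2
    · rw [BoundedContinuousFunction.add_apply, z2 a (h.trans_lt e), h1 a (.inr e), add_zero]
  rcases eq_or_ne w 0 with rfl | e
  · simp
  have p := norm_pos_iff.2 e
  have n : ‖‖w‖⁻¹ • w‖ ≤ 1 := by rw [norm_smul, norm_inv, norm_norm, inv_mul_cancel₀ p.ne']
  have a := k (‖w‖⁻¹ • w) (fun a e => by simp [hw a e]) n
  have b := k (-(‖w‖⁻¹ • w)) (fun a e => by simp [hw a e]) ((norm_neg _).trans_le n)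
  rw [map_neg] at b
  rw [map_smul, smul_eq_mul] at a b
  rw [← div_le_iff₀ p, div_eq_inv_mul, ← abs_of_pos (inv_pos.2 p), ← abs_mul]
  exact abs_le.2 ⟨by linarith, by linarith⟩

theorem W_P (φ : (I →ᵇ ℝ) →L[ℝ] ℝ) {α β : I} (h : α ≤ β) (x : I →ᵇ ℝ) {R : ℝ} (h0 : 0 ≤ R)
    (hR : ∀ a, α < a → a ≤ β → |x a - x ⊤| ≤ R) :
    |φ (P β x) - φ (P α x)| ≤ (W φ β - W φ α) * R := by
  obtain ⟨a, b⟩ := P_sub h x h0 hR
  rw [← map_sub]
  exact (W_key φ h b).trans (mul_le_mul_of_nonneg_left a (sub_nonneg.2 (W_mono φ h)))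

theorem lim (φ : (I →ᵇ ℝ) →L[ℝ] ℝ) {η : I} (h : ∃ a, a < η) {ε : ℝ} (hε : 0 < ε) :
    ∃ α < η, ∀ β γ, α ≤ β → β ≤ γ → γ ≤ η → ∀ y : I →ᵇ ℝ, (γ < η ∨ y η = y ⊤) →
      |φ (P γ y) - φ (P β y)| ≤ ε * ‖y‖ := by
  obtain ⟨r, hr⟩ := Real.exists_isLUB (s := W φ '' Iio η) ⟨_, _, h.choose_spec, rfl⟩
    ⟨‖φ‖, by
      rintro _ ⟨a, -, rfl⟩
      exact W_norm φ a⟩
  obtain ⟨_, ⟨α, a1, rfl⟩, a2, -⟩ := hr.exists_between (show r - ε / 2 < r by linarith)
  have k : ∀ β γ, α ≤ β → β ≤ γ → γ < η → ∀ y : I →ᵇ ℝ,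
      |φ (P γ y) - φ (P β y)| ≤ ε * ‖y‖ := fun β γ e1 e2 e3 y =>
    (W_P φ e2 y (by positivity) fun a _ _ => ab2 y a ⊤).trans (by
      nlinarith [hr.1 ⟨γ, e3, rfl⟩, W_mono φ e1, norm_nonneg y])
  refine ⟨α, a1, fun β γ e1 e2 e3 y hy => ?_⟩
  rcases e3.eq_or_lt with rfl | e3
  · rcases e2.eq_or_lt with rfl | e2
    · simp only [sub_self, abs_zero]
      positivity
    refine le_of_forall_pos_le_add fun κ hκ => ?_
    obtain ⟨δ, d1, d2⟩ := near y h (show 0 < κ / (‖φ‖ + 1) by positivity)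
    have b := k β (max β δ) e1 (le_max_left _ _) (max_lt e2 d1) y
    have c := W_P φ (max_lt e2 d1).le y (show 0 ≤ κ / (‖φ‖ + 1) by positivity) fun a f g =>
      hy.resolve_left (lt_irrefl _) ▸ (d2 a ((le_max_right _ _).trans_lt f) g).le
    have d : (W φ γ - W φ (max β δ)) * (κ / (‖φ‖ + 1)) ≤ κ := by
      rw [← mul_div_assoc, div_le_iff₀ (by positivity)]
      have := le_W φ (α := max β δ) (z := 0) (by simp) fun _ _ => rfl
      rw [map_zero] at this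
      nlinarith [W_norm φ γ]
    linarith [abs_sub_le (φ (P γ y)) (φ (P (max β δ) y)) (φ (P β y))]
  · exact k β γ e1 e2 e3 y

theorem sep_sub {X : Type*} [NormedAddCommGroup X] [NormedSpace ℝ X] {S : Set (X →L[ℝ] ℝ)}
    (h : S.Countable) : ∃ M : Submodule ℝ (X →L[ℝ] ℝ), S ⊆ M ∧ IsClosed (M : Set (X →L[ℝ] ℝ)) ∧
      TopologicalSpace.IsSeparable (M : Set (X →L[ℝ] ℝ)) :=
  ⟨(Submodule.span ℝ S).topologicalClosure, Submodule.subset_span.trans subset_closure,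
    Submodule.isClosed_topologicalClosure _, (h.isSeparable.span (R := ℝ)).closure⟩

theorem sep {α : I} (hα : (Iic α).Countable) :
    TopologicalSpace.IsSeparable {ψ : (I →ᵇ ℝ) →L[ℝ] ℝ | ∀ y, ψ (P α y) = ψ y} := by
  obtain ⟨M, m0, m2, m3⟩ := sep_sub ((hα.insert ⊤).image dl)
  refine m3.mono fun φ hφ => ?_
  have m1 : ∀ a, a ≤ α → dl a - dl ⊤ ∈ M ∧ dl ⊤ ∈ M := fun a e =>
    ⟨M.sub_mem (m0 ⟨a, .inr e, rfl⟩) (m0 ⟨_, .inl rfl, rfl⟩), m0 ⟨_, .inl rfl, rfl⟩⟩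
  have k : ∀ β, β ≤ α → φ.comp (P β) ∈ M := fun β => by
    induction β using WellFoundedLT.induction with | ind β ih => ?_
    intro hβ
    by_cases h : ∃ a, a < β
    · refine m2.closure_subset ((Metric.mem_closure_iff (α := (I →ᵇ ℝ) →L[ℝ] ℝ)).2 fun ε hε => ?_)
      obtain ⟨γ, g1, g2⟩ := lim φ h (show 0 < ε / 4 by positivity)
      refine ⟨φ.comp (P γ) + (φ (P β (chi β)) - φ (P γ (chi β))) • (dl β - dl ⊤),
        M.add_mem (ih γ g1 (g1.le.trans hβ)) (M.smul_mem _ (m1 β hβ).1), ?_⟩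
      rw [dist_eq_norm (φ.comp (P β))]
      refine lt_of_le_of_lt (ContinuousLinearMap.opNorm_le_bound _ (M := ε / 4 * 3)
        (by positivity) fun y => ?_) (by linarith)
      have n : ‖(y β - y ⊤) • chi β‖ ≤ 2 * ‖y‖ := (norm_le (by positivity)).2 fun a => by
        rcases le_or_gt a β with e | e
        · simpa [chi_le e] using ab2 y β ⊤
        · simp [chi_gt e]
      have b := g2 γ β le_rfl g1.le le_rfl (y - (y β - y ⊤) • chi β) (.inr (by
        rcases (le_top (a := β)).eq_or_lt with rfl | e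
        · rfl
        · simp [chi_le, chi_gt e]))
      refine le_trans (le_of_eq_of_le ?_ b) (by nlinarith [norm_sub_le y ((y β - y ⊤) • chi β)])
      simp only [sub_apply, add_apply, smul_apply, ContinuousLinearMap.comp_apply, map_sub,
        map_smul, dl_ap, smul_eq_mul, Real.norm_eq_abs]
      congr 1
      ring
    · push Not at h
      convert M.add_mem (M.smul_mem (φ 1) (m1 β hβ).2) (M.smul_mem (φ (chi β)) (m1 β hβ).1)
      ext y
      have : P β y = y ⊤ • (1 : I →ᵇ ℝ) + (y β - y ⊤) • chi β := by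
        ext a
        rcases (h a).eq_or_lt with rfl | e
        · simp [P_le, chi_le]
        · simp [P_gt e, chi_gt e]
      simp [this, dl_ap, mul_comm]
  have := k α le_rfl
  rwa [show φ.comp (P α) = φ from ContinuousLinearMap.ext hφ] at this

end Pool.Agent.H.MP_a1e890
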