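import Pool.Agent.H.MP_a1e890.C

set_option autoImplicit false
open Set Filter Topology Function
open scoped BoundedContinuousFunction
open BoundedContinuousFunction (norm_le)

namespace Pool.Agent.H.MP_a1e890

theorem exists_sup {X : Type*} [NormedAddCommGroup X] [NormedSpace ℝ X] {H : Set (X →L[ℝ] ℝ)}
    (h0 : 0 ∈ H) (h1 : ∀ h ∈ H, -h ∈ H) (h2 : ∀ h ∈ H, ∀ x, h x ≤ ‖x‖) : ∃ N : Seminorm ℝ X,
      (∀ h ∈ H, ∀ x, h x ≤ N x) ∧ ∀ x R, (∀ h ∈ H, h x ≤ R) → N x ≤ R := by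
  obtain ⟨N, n1, n2⟩ : ∃ N : X → ℝ, (∀ h ∈ H, ∀ x, h x ≤ N x) ∧
      ∀ x R, (∀ h ∈ H, h x ≤ R) → N x ≤ R :=
    ⟨fun x => sSup ((fun h => h x) '' H), fun h e x => le_csSup ⟨‖x‖, by
      rintro _ ⟨g, hg, rfl⟩
      exact h2 g hg x⟩ ⟨h, e, rfl⟩, fun x R h => csSup_le ⟨_, 0, h0, rfl⟩ (by
      rintro _ ⟨g, hg, rfl⟩
      exact h g hg)⟩
  refine ⟨Seminorm.ofSMulLE N (le_antisymm (n2 _ _ fun h _ => (map_zero h).le) (n1 0 h0 0))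
    (fun x y => n2 _ _ fun h e => ?_) fun r x => n2 _ _ fun h e => ?_, n1, n2⟩
  · rw [map_add]
    exact add_le_add (n1 h e x) (n1 h e y)
  · rw [map_smul, smul_eq_mul]
    exact (le_abs_self _).trans ((abs_mul _ _).trans_le (mul_le_mul_of_nonneg_left
      (abs_le.2 ⟨neg_le.1 (n1 _ (h1 h e) x), n1 h e x⟩) (abs_nonneg r)))

theorem semi_ok {X : Type*} [NormedAddCommGroup X] [NormedSpace ℝ X] {p : Seminorm ℝ X}
    (h : ∀ y, p y ≤ ‖y‖) : Ok p := ⟨map_neg_eq_map p, apply_nonneg p, h⟩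

theorem sgn {ε : ℝ} (h : 0 ≤ ε) (t : ℝ) : ∃ s, |s| ≤ ε ∧ s * t = ε * |t| := by
  rcases le_total 0 t with e | e
  · exact ⟨ε, (abs_of_nonneg h).le, by rw [abs_of_nonneg e]⟩
  · exact ⟨-ε, by rw [abs_neg, abs_of_nonneg h], by rw [abs_of_nonpos e]; ring⟩

theorem dense_sub {X : Type*} [NormedAddCommGroup X] [NormedSpace ℝ X] {E : Set (X →L[ℝ] ℝ)}
    (h : TopologicalSpace.IsSeparable E) : ∃ D : Set (X →L[ℝ] ℝ), D.Countable ∧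
      ∀ φ ∈ E, ∀ δ > 0, ∃ ψ ∈ D, ∀ z, |φ z - ψ z| ≤ δ * ‖z‖ := by
  obtain ⟨D, d1, d2⟩ := h
  refine ⟨D, d1, fun φ hφ δ hδ => ?_⟩
  obtain ⟨ψ, p1, p2⟩ := Metric.mem_closure_iff.1 (d2 hφ) δ hδ
  rw [dist_eq_norm] at p2
  exact ⟨ψ, p1, (φ - ψ).le_of_opNorm_le p2.le⟩

variable {I : Type*} [LinearOrder I] [WellFoundedLT I] [OrderTop I] [TopologicalSpace I]
  [OrderTopology I]

theorem P_P' {α β : I} (h : α ≤ β) (x : I →ᵇ ℝ) : P α (P β x) = P α x := by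
  ext a
  rcases le_or_gt a α with e | e
  · rw [P_le e, P_le e, P_le (e.trans h)]
  · rw [P_gt e, P_gt e, P_top]

theorem ann {ψ : (I →ᵇ ℝ) →L[ℝ] ℝ} {q : (I →ᵇ ℝ) → ℝ} {α γ : I} (h : ∀ y, ψ y ≤ q (P α y))
    (q0 : q 0 = 0) (e : α ≤ γ) (y : I →ᵇ ℝ) : ψ (P γ y) = ψ y := by
  have a := h (y - P γ y)
  have b := h (P γ y - y)
  rw [map_sub, map_sub, P_P' e, sub_self, q0] at a b
  linarith

omit [OrderTop I] in
theorem c0 (x : I →ᵇ ℝ) {S : Set I} {σ : I → I} (hσ : ∀ a ∈ S, ∀ b ∈ S, a < b → σ a ≤ b) {θ : ℝ}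
    (h0 : 0 < θ) (h : ∀ b ∈ S, ∃ a, b ≤ a ∧ a ≤ σ b ∧ θ ≤ |x a - x b|) (η : I) :
    (S ∩ Iic η).Finite := by
  induction η using WellFoundedLT.induction with | ind η ih => ?_
  by_cases e : ∃ a, a < η
  · obtain ⟨α, a1, a2⟩ := near x e (half_pos h0)
    have k : ∀ a ∈ S ∩ Ioc α η, ∀ b ∈ S ∩ Ioc α η, ¬a < b := fun a ha b hb f => by
      obtain ⟨c, c1, c2, c3⟩ := h a ha.1
      linarith [abs_sub_le (x c) (x η) (x a), abs_sub_comm (x η) (x a), a2 a ha.2.1 ha.2.2,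
        a2 c (ha.2.1.trans_le c1) (c2.trans ((hσ a ha.1 b hb.1 f).trans hb.2.2))]
    refine ((ih α a1).union (Set.Subsingleton.finite (s := S ∩ Ioc α η) fun a ha b hb =>
      le_antisymm (not_lt.1 (k b hb a ha)) (not_lt.1 (k a ha b hb)))).subset fun a ha => ?_
    exact (le_or_gt a α).imp (fun f => ⟨ha.1, f⟩) fun f => ⟨ha.1, f, ha.2⟩
  · push Not at e
    exact (finite_singleton η).subset fun a ha => le_antisymm ha.2 (e a)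

theorem lastmax (x : I →ᵇ ℝ) {α : I} (h : α < ⊤) : ∃ β, α < β ∧
    (∀ a, α < a → |x a - x ⊤| ≤ |x β - x ⊤|) ∧ ∀ a, β < a → |x a - x ⊤| < |x β - x ⊤| := by
  have := cpt (I := I)
  have c : IsClosed (Ioi α) := by simpa using (clo α).compl.1
  have f : Continuous fun a => |x a - x ⊤| := (x.continuous.sub continuous_const).abs
  obtain ⟨β, b1, b2⟩ := c.isCompact.exists_isMaxOn ⟨_, h⟩ f.continuousOn
  obtain ⟨γ, g1, g2⟩ := (c.inter (isClosed_le (f := fun _ => |x β - x ⊤|) continuous_const f)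
    ).isCompact.exists_isGreatest ⟨β, b1, le_refl |x β - x ⊤|⟩
  exact ⟨γ, g1.1, fun a e => (b2 e).trans g1.2, fun a e => not_le.1 fun k =>
    not_le.2 e (g2 ⟨g1.1.trans e, g1.2.trans k⟩)⟩

/-- `η` is a nonzero countable ordinal closed under `g`. -/
def Cl (g : I → I) (η : I) : Prop := η < ⊤ ∧ (∃ a, a < η) ∧ ∀ α < η, g α < η

variable [Uncountable I] (hc : ∀ a : I, a < ⊤ → (Iic a).Countable)
include hc

omit [WellFoundedLT I] [TopologicalSpace I] [OrderTopology I] in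
theorem bnd {A : Set I} (hA : A.Countable) : ∃ b < ⊤, ∀ a ∈ A, a < ⊤ → a < b := by
  have k := ((hA.mono (inter_subset_left (t := Iio ⊤))).biUnion fun a ha => hc a ha.2).insert ⊤
  by_contra hn
  push Not at hn
  refine not_countable_univ (k.mono fun b _ => (le_top (a := b)).eq_or_lt.imp_right fun e => ?_)
  obtain ⟨a, a1, a2, a3⟩ := hn b e
  exact mem_iUnion₂.2 ⟨a, ⟨a1, a2⟩, a3⟩

theorem evc (x : I →ᵇ ℝ) : ∃ α < ⊤, P α x = x := by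
  obtain ⟨b, b1, -⟩ := bnd hc countable_empty
  choose l l1 l2 using fun n : ℕ => near x ⟨b, b1⟩ (Nat.one_div_pos_of_nat (n := n))
  obtain ⟨α, a1, a2⟩ := bnd hc (countable_range l)
  refine ⟨α, a1, P_eq fun a e => sub_eq_zero.1 (abs_nonpos_iff.1 (not_lt.1 fun k => ?_))⟩
  obtain ⟨n, hn⟩ := exists_nat_one_div_lt k
  exact hn.not_gt (l2 n a ((a2 _ ⟨n, rfl⟩ (l1 n)).trans e) le_top)

omit [TopologicalSpace I] [OrderTopology I] in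
theorem club {g : I → I} (hg : ∀ α < ⊤, g α < ⊤) {β : I} (hβ : β < ⊤) : ∃ η, β < η ∧ Cl g η := by
  have k : ∀ b : Iio (⊤ : I), ∃ c : Iio (⊤ : I), ∀ a ≤ b.1, g a < c := fun b => by
    obtain ⟨c, c1, c2⟩ := bnd hc ((hc _ b.2).image g)
    exact ⟨⟨c, c1⟩, fun a e => c2 _ ⟨a, e, rfl⟩ (hg a (e.trans_lt b.2))⟩
  choose F hF using k
  obtain ⟨B, b0, b1⟩ : ∃ B : ℕ → Iio (⊤ : I), (B 0).1 = β ∧ ∀ n, B (n + 1) = F (B n) :=
    ⟨fun n => F^[n] ⟨β, hβ⟩, rfl, fun n => iterate_succ_apply' _ _ _⟩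
  obtain ⟨c, c1, c2⟩ := bnd hc (countable_range fun n => (B n).1)
  obtain ⟨η, e1, e2⟩ := WellFounded.has_min wellFounded_lt {η | ∀ n, (B n).1 < η}
    ⟨c, fun n => c2 _ ⟨n, rfl⟩ (B n).2⟩
  refine ⟨η, b0 ▸ e1 0, (not_lt.1 (e2 c fun n => c2 _ ⟨n, rfl⟩ (B n).2)).trans_lt c1, ⟨_, e1 0⟩,
    fun α e => ?_⟩
  obtain ⟨n, hn⟩ : ∃ n, α ≤ (B n).1 := by
    by_contra hn
    push Not at hn
    exact e2 α hn e
  exact (hF _ α hn).trans (b1 n ▸ e1 (n + 1))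

theorem good (p : (I →ᵇ ℝ) → ℝ) : ∃ g : I → I, (∀ α < ⊤, g α < ⊤) ∧ ∀ η, Cl g η → ∀ φ ∈ EE p,
    ∀ ε > 0, ∃ α < η, ∀ β, α ≤ β → β < η → ∀ y, φ (P β y) ≤ p y + ε * ‖y‖ := by
  choose e e1 e2 using evc hc
  have k : ∀ (ψ : (I →ᵇ ℝ) →L[ℝ] ℝ) (n : ℕ), ∃ w, ∀ y, p y + 1 / (n + 1) * ‖y‖ < ψ y →
      p w + 1 / (n + 1) * ‖w‖ < ψ w := fun ψ n => by
    by_cases h : ∃ y, p y + 1 / (n + 1) * ‖y‖ < ψ y
    · exact h.imp fun w hw _ _ => hw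
    · exact ⟨0, fun y hy => absurd ⟨y, hy⟩ h⟩
  choose w hw using k
  choose! D d2 d3 using fun α (h : α < ⊤) => dense_sub (sep (hc α h))
  choose! g g1 g2 using fun α (h : α < ⊤) =>
    bnd hc (((d2 α h).prod countable_univ).image fun j : _ × ℕ => e (w j.1 j.2))
  refine ⟨g, g1, fun η hη φ hφ ε hε => ?_⟩
  obtain ⟨n, hn⟩ := exists_nat_one_div_lt (half_pos hε)
  have t0 : (0 : ℝ) < 1 / (n + 1) := by positivity
  obtain ⟨α, a1, a2⟩ := lim φ hη.2.1 (half_pos t0)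
  refine ⟨α, a1, fun β b1 b2 y => not_lt.1 fun h => ?_⟩
  have b3 := b2.trans hη.1
  obtain ⟨ψ, p1, p2⟩ := d3 β b3 (φ.comp (P β)) (fun y => congrArg φ (P_P le_rfl y)) _ (half_pos t0)
  have p3 := fun z => abs_le.1 (p2 z)
  simp only [ContinuousLinearMap.comp_apply] at p3
  have c := hw ψ n y (by nlinarith [(p3 y).2, norm_nonneg y])
  have d := a2 β (max β (g β)) b1 (le_max_left _ _) (max_lt b2 (hη.2.2 β b2)).le (w ψ n)
    (.inl (max_lt b2 (hη.2.2 β b2)))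
  have f := P_P ((g2 β b3 _ ⟨(ψ, n), ⟨p1, trivial⟩, rfl⟩ (e1 _)).le.trans (le_max_right β _)) (w ψ n)
  rw [e2] at f
  rw [f] at d
  linarith [hφ (w ψ n), (p3 (w ψ n)).1, (abs_le.1 d).1]

end Pool.Agent.H.MP_a1e890
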