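import Pool.Agent.H.MP_a1e890.D

set_option autoImplicit false
open Set Filter Topology Function
open scoped BoundedContinuousFunction
open BoundedContinuousFunction (norm_le)

namespace Pool.Agent.H.MP_a1e890

variable {I : Type*} [LinearOrder I] [WellFoundedLT I] [OrderTop I] [TopologicalSpace I]
  [OrderTopology I]

theorem E_ok {N : (I →ᵇ ℝ) → ℝ} (h : Ok N) (γ : I) : Ok fun y => min (N y) ‖P γ y‖ :=
  h.min (fun y => by rw [map_neg, norm_neg]) fun _ => norm_nonneg _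

theorem E_mem {N : (I →ᵇ ℝ) → ℝ} (h : Ok N) {γ : I} {ψ : (I →ᵇ ℝ) →L[ℝ] ℝ} (h1 : ψ ∈ EE N)
    (h2 : ∀ y, ψ (P γ y) = ψ y) : ψ ∈ EE fun y => min (N y) ‖P γ y‖ := fun y =>
  le_min (h1 y) (h2 y ▸ (h1 _).trans (h.le _))

theorem E_sep {γ : I} (h : (Iic γ).Countable) (N : (I →ᵇ ℝ) → ℝ) :
    TopologicalSpace.IsSeparable (EE fun y => min (N y) ‖P γ y‖) :=
  (sep h).mono fun _ hψ => ann (q := norm) (fun y => (hψ y).trans (min_le_right _ _)) norm_zero le_rfl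

variable [Uncountable I] (hc : ∀ a : I, a < ⊤ → (Iic a).Countable)
include hc

theorem approx0 (p : Seminorm ℝ (I →ᵇ ℝ)) {c : ℝ} (c0' : 0 < c) (p1 : ∀ x, c * ‖x‖ ≤ p x)
    (p2 : ∀ x, p x ≤ ‖x‖ / 2) {ε : ℝ} (e0 : 0 < ε) (e1 : ε ≤ 1 / 6) :
    ∃ q : Seminorm ℝ (I →ᵇ ℝ), (∀ x, p x ≤ q x ∧ q x ≤ p x + 4 * ε * ‖x‖) ∧
      ∀ x, x ≠ 0 → ∃ Φ : (I →ᵇ ℝ) →L[ℝ] ℝ, HasStrictFDerivAt q Φ x := by
  have p3 : ∀ x, p x ≤ ‖x‖ := fun x => by linarith [p2 x, norm_nonneg x]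
  obtain ⟨A, hA⟩ : ∃ A : ((I →ᵇ ℝ) →L[ℝ] ℝ) → I → Prop, ∀ ψ α, A ψ α ↔
    (∀ y, ψ y ≤ p (P α y)) ∧ ∀ y, ψ y ≤ p y + ε * ‖y‖ := ⟨_, fun _ _ => Iff.rfl⟩
  have hs : ∀ (s : ℝ) (β : I) (x : I →ᵇ ℝ), |s| ≤ ε → s * (x β - x ⊤) ≤ ε * |x β - x ⊤| :=
    fun s β x h => (le_abs_self _).trans ((abs_mul _ _).trans_le
      (mul_le_mul_of_nonneg_right h (abs_nonneg _)))
  have b0 : ∀ ψ α β (s : ℝ) x, A ψ α → |s| ≤ ε → ψ x + s * (x β - x ⊤) ≤ p x + 3 * ε * ‖x‖ :=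
    fun ψ α β s x a h => by
      nlinarith [((hA _ _).1 a).2 x, hs s β x h, mul_le_mul_of_nonneg_left (ab2 x β ⊤) e0.le]
  obtain ⟨b, hb0, -⟩ := bnd hc countable_empty
  have A0 : ∀ α, A 0 α := fun α => (hA _ _).2 ⟨fun y => apply_nonneg _ _, fun y =>
    add_nonneg (apply_nonneg _ _) (by positivity)⟩
  obtain ⟨N, n1, n2⟩ : ∃ N : Seminorm ℝ (I →ᵇ ℝ), (∀ α β ψ (s : ℝ), α < β → A ψ α → |s| ≤ ε →
      ψ + s • (dl β - dl ⊤) ∈ EE N) ∧ ∀ x R, (∀ α β ψ (s : ℝ), α < β → A ψ α → |s| ≤ ε →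
        ψ x + s * (x β - x ⊤) ≤ R) → N x ≤ R := by
    obtain ⟨N, n1, n2⟩ := exists_sup (H := {h | ∃ α β ψ, ∃ s : ℝ, α < β ∧ A ψ α ∧ |s| ≤ ε ∧
      h = ψ + s • (dl β - dl ⊤)}) ⟨b, ⊤, 0, 0, hb0, A0 b, by simpa using e0.le, by simp⟩ (by
        rintro _ ⟨α, β, ψ, s, h1, h2, h3, rfl⟩
        refine ⟨α, β, -ψ, -s, h1, (hA _ _).2 ⟨fun y => ?_, fun y => ?_⟩, by rwa [abs_neg], by module⟩
        · simpa using ((hA _ _).1 h2).1 (-y)
        · simpa using ((hA _ _).1 h2).2 (-y)) (by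
        rintro _ ⟨α, β, ψ, s, h1, h2, h3, rfl⟩ x
        exact (b0 ψ α β s x h2 h3).trans (by nlinarith [p2 x, norm_nonneg x]))
    refine ⟨N, fun α β ψ s h1 h2 h3 => n1 _ ⟨α, β, ψ, s, h1, h2, h3, rfl⟩, fun x R h => n2 x R ?_⟩
    rintro _ ⟨α, β, ψ, s, h1, h2, h3, rfl⟩
    exact h α β ψ s h1 h2 h3
  have n3 : ∀ x, N x ≤ p x + 3 * ε * ‖x‖ := fun x => n2 _ _ fun α β ψ s _ => b0 ψ α β s x
  have n4 : ∀ x, N x ≤ ‖x‖ := fun x => (n3 x).trans (by nlinarith [p2 x, norm_nonneg x])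
  have ok := semi_ok n4
  obtain ⟨g1, g11, g12⟩ := good hc p
  obtain ⟨g2, g21, g22⟩ := good hc N
  choose! γ' c1 c2 using fun β (h : β < ⊤) => club hc (g := fun a => max (g1 a) (g2 a))
    (fun a e => max_lt (g11 a e) (g21 a e)) h
  obtain ⟨γ, c3, c4⟩ : ∃ γ : I → I, (∀ β < ⊤, β < γ β) ∧
      ∀ β, Cl (fun a => max (g1 a) (g2 a)) (γ β) :=
    ⟨fun β => if β < ⊤ then γ' β else γ' b, fun β h => by simpa only [if_pos h] using c1 β h,
      fun β => by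
        dsimp only
        split_ifs with h
        exacts [c2 β h, c2 b hb0]⟩
  have G1 := fun η (h : Cl (fun a => max (g1 a) (g2 a)) η) =>
    g12 η ⟨h.1, h.2.1, fun a e => (le_max_left _ _).trans_lt (h.2.2 a e)⟩
  have G2 := fun η (h : Cl (fun a => max (g1 a) (g2 a)) η) =>
    g22 η ⟨h.1, h.2.1, fun a e => (le_max_right _ _).trans_lt (h.2.2 a e)⟩
  have n5 : ∀ x, p x ≤ N x := fun x => by
    obtain ⟨φ, f1, f2⟩ := hb p p3 x
    obtain ⟨η, h1, h2⟩ := evc hc x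
    obtain ⟨α, a1, a2⟩ := G1 _ (c4 η) φ f1 ε e0
    have m := max_lt a1 (c3 η h1)
    have := n1 (max α η) ⊤ (φ.comp (P (max α η))) 0 (m.trans_le le_top) ((hA _ _).2
      ⟨fun y => f1 _, a2 _ (le_max_left _ _) m⟩) (by simpa using e0.le) x
    rwa [zero_smul, add_zero, ContinuousLinearMap.comp_apply, ← h2, P_P (le_max_right _ _), h2,
      f2] at this
  choose! s s1 s2 using fun β (h : β < (⊤ : I)) => ex_succ h
  obtain ⟨l, l1, l2⟩ : ∃ l : I → (I →ᵇ ℝ) →L[ℝ] ℝ, (∀ x, l ⊤ x = x ⊤) ∧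
      ∀ β < ⊤, ∀ x, l β x = (x (s β) - x β) / 2 :=
    ⟨fun β => if β < ⊤ then (1 / 2 : ℝ) • (dl (s β) - dl β) else dl ⊤,
      fun x => by simp [dl_ap], fun β h x => by simp [h, dl_ap, div_eq_inv_mul]⟩
  have l3 : ∀ β x, |l β x| ≤ ‖x‖ ∧ l β (P (γ β) x) = l β x := fun β x => by
    rcases (le_top (a := β)).eq_or_lt with rfl | h
    · rw [l1, l1]
      exact ⟨ab x _, P_top _ _⟩
    · rw [l2 β h, l2 β h, P_le (s2 β h _ (c3 β h)), P_le (c3 β h).le, abs_div, abs_two]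
      exact ⟨by linarith [ab2 x (s β) β], rfl⟩
  refine (mainT (f := fun β y => min (N y) ‖P (γ β) y‖) (N := N)
    (d := fun β => (normSeminorm ℝ ℝ).comp (l β).toLinearMap) (fun β => E_ok ok _)
    (fun β => E_sep (hc _ (c4 β).1) _) (fun x y => by
      simpa using (N.norm_sub_map_le_sub y x).trans (n4 _))
    (fun β ψ h x => (h x).trans (min_le_left _ _)) (fun β y => (l3 β y).1)
    (fun x θ h => ((c0 x (S := {β | β < ⊤ ∧ θ ≤ |l β x|}) (σ := s)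
      (fun a ha b _ => s2 a ha.1 b) h (fun β hβ => ⟨s β, (s1 β hβ.1).le, le_rfl, by
        have := hβ.2
        rw [l2 β hβ.1, abs_div, abs_two] at this
        linarith [abs_nonneg (x (s β) - x β)]⟩) ⊤).insert ⊤).subset fun β hβ =>
          (le_top (a := β)).eq_or_lt.imp_right fun e => ⟨⟨e, hβ⟩, le_top⟩)
    (fun β x (h : 0 < |l β x|) => ⟨⟨_, (l β).hasStrictFDerivAt.abs (abs_pos.1 h)⟩, by
      obtain ⟨t, t1, t2⟩ := sgn c0'.le (l β x)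
      refine ⟨t • l β, E_mem ok (fun y => ?_) fun y => congrArg (t * ·) (l3 β y).2,
        (mul_pos c0' h).trans_eq t2.symm⟩
      exact ((le_abs_self _).trans ((abs_mul _ _).trans_le (mul_le_mul t1 (l3 β y).1
        (abs_nonneg _) c0'.le))).trans ((p1 y).trans (n5 y))⟩)
    (fun x hx => ?_) e0 (by linarith)).elim fun q ⟨q1, q2, q3⟩ => ?_
  swap
  · refine ⟨q, fun x => ⟨(n5 x).trans (q1 x), ?_⟩, fun x hx => q3 x
      ((mul_pos c0' (norm_pos_iff.2 hx)).trans_le ((p1 x).trans (n5 x)))⟩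
    linarith [q2 x _ fun β => (l3 β x).1, n3 x]
  suffices h : ∃ β, l β x ≠ 0 ∧ ∀ φ : (I →ᵇ ℝ) →L[ℝ] ℝ, φ x ≤ ‖x‖ →
      (∀ ψ ∈ EE N, (∀ y, ψ (P (γ β) y) = ψ y) → ψ x ≤ φ x) → N x ≤ φ x by
    obtain ⟨β, h1, h2⟩ := h
    obtain ⟨φ, f1, f2⟩ := (E_ok ok (γ β)).max x
    exact ⟨β, abs_pos.2 h1, φ, f1, h2 φ ((f1 x).trans ((min_le_left _ _).trans (n4 x)))
      fun ψ a b => f2 ψ (E_mem ok a b)⟩
  obtain ⟨η0, h1, h2⟩ := evc hc x
  obtain ⟨η, (k1 : P η x = x), k2⟩ := WellFounded.has_min wellFounded_lt {η : I | P η x = x} ⟨η0, h2⟩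
  have k3 : η < ⊤ := (not_lt.1 (k2 η0 h2)).trans_lt h1
  have k4 : ∀ a, η < a → x a = x ⊤ := fun a e => by rw [← P_gt e, k1]
  by_cases h : ∃ β, l β x ≠ 0 ∧ η < γ β
  · obtain ⟨β, h3, h4⟩ := h
    refine ⟨β, h3, fun φ f1 f2 => le_of_forall_pos_le_add fun κ hκ => ?_⟩
    obtain ⟨θ, t1, t2⟩ := hb N n4 x
    obtain ⟨t, t0, t3⟩ : ∃ t > 0, t * ‖x‖ ≤ κ := ⟨κ / (‖x‖ + 1), by positivity, by
      rw [div_mul_eq_mul_div, div_le_iff₀ (by positivity)]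
      linarith⟩
    obtain ⟨α, a1, a2⟩ := G2 _ (c4 β) θ t1 (t * c) (by positivity)
    have m := max_lt a1 h4
    have := f2 ((1 + t)⁻¹ • θ.comp (P (max α η))) (fun y => by
      rw [smul_apply, smul_eq_mul, inv_mul_le_iff₀ (by positivity)]
      nlinarith [a2 _ (le_max_left _ _) m y, mul_le_mul_of_nonneg_left ((p1 y).trans (n5 y)) t0.le,
        ContinuousLinearMap.comp_apply θ (P (max α η)) y])
      fun y => congrArg (fun z => (1 + t)⁻¹ * θ z) (P_P' m.le y)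
    rw [smul_apply, smul_eq_mul, inv_mul_le_iff₀ (by positivity), ContinuousLinearMap.comp_apply,
      ← k1, P_P (le_max_right _ _), k1, t2] at this
    nlinarith
  push Not at h
  have k5 : x η = x ⊤ := by
    by_contra e
    refine not_le.2 (c3 η k3) (h η ?_)
    rw [l2 η k3, k4 _ (s1 η k3)]
    exact div_ne_zero (sub_ne_zero.2 (Ne.symm e)) two_ne_zero
  have k6 : ∃ a, a < η := by
    by_contra e
    push Not at e
    refine ((c4 ⊤).2.1).elim fun a f => not_le.2 f ((h ⊤ fun k => hx.ne' ?_).trans (e a))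
    rw [show x = 0 from BoundedContinuousFunction.ext fun a => ?_, map_zero]
    rw [l1] at k
    rcases (e a).eq_or_lt with rfl | f
    exacts [k5.trans k, (k4 a f).trans k]
  have J : ∀ α < η, ∃ β, α < β ∧ β < η ∧ l β x ≠ 0 ∧ 0 < |x β - x ⊤| ∧
      ∀ a, α < a → |x a - x ⊤| ≤ |x β - x ⊤| := fun α e => by
    obtain ⟨β, b1, b2, b3⟩ := lastmax x (e.trans k3)
    have b4 : 0 < |x β - x ⊤| := not_le.1 fun f => k2 α (P_eq fun a f' =>
      sub_eq_zero.1 (abs_nonpos_iff.1 ((b2 a f').trans f))) e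
    have b5 : β < η := not_le.1 fun f => by
      rcases f.eq_or_lt with rfl | f
      · simp [k5] at b4
      · simp [k4 β f] at b4
    refine ⟨β, b1, b5, fun f => (b3 _ (s1 β (b5.trans k3))).ne ?_, b4, b2⟩
    rw [l2 β (b5.trans k3), div_eq_zero_iff, sub_eq_zero] at f
    rw [f.resolve_right two_ne_zero]
  have k7 : Cl (fun a => max (g1 a) (g2 a)) η := ⟨k3, k6, fun α e => by
    obtain ⟨β, b1, b2, b3, -⟩ := J α e
    exact ((c4 β).2.2 α (b1.trans (c3 β (b2.trans k3)))).trans_le (h β b3)⟩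
  obtain ⟨κ, κ0, k8⟩ : ∃ κ > 0, p x + κ ≤ N x := by
    obtain ⟨θ, t1, t2⟩ := hb p p3 x
    obtain ⟨α, a1, a2⟩ := G1 η k7 θ t1 ε e0
    obtain ⟨α', a3, a4⟩ := lim θ k6 (half_pos e0)
    have m := max_lt a1 a3
    obtain ⟨β, b1, b2, -, b3, b4⟩ := J _ m
    obtain ⟨t, t3, t4⟩ := sgn e0.le (x β - x ⊤)
    have u : θ (P (max α α') x) + t * (x β - x ⊤) ≤ N x := n1 _ β (θ.comp (P (max α α'))) t b1
      ((hA _ _).2 ⟨fun y => t1 _, a2 _ (le_max_left _ _) m⟩) t3 x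
    obtain ⟨z1, z2⟩ := P_sub m.le x b3.le fun a f _ => b4 a f
    have v := a4 _ η (le_max_right _ _) m.le le_rfl (P η x - P (max α α') x) (.inr (by
      rw [z2 ⊤ (.inr k3), BoundedContinuousFunction.sub_apply, P_le le_rfl, P_gt m, k5, sub_self]))
    rw [map_sub (P η), map_sub (P (max α α')), P_P le_rfl, P_P m.le, P_P le_rfl, P_P' m.le,
      sub_self, map_zero, sub_zero, map_sub, k1, t2] at v
    rw [k1] at z1
    exact ⟨ε / 2 * |x β - x ⊤|, by positivity, by nlinarith [(abs_le.1 v).2]⟩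
  obtain ⟨α1, a1, a2⟩ := near x k6 κ0
  have a3 : ∀ a, α1 < a → |x a - x ⊤| ≤ κ := fun a f => by
    rcases le_or_gt a η with f' | f'
    · exact k5 ▸ (a2 a f f').le
    · rw [k4 a f', sub_self, abs_zero]
      exact κ0.le
  obtain ⟨β1, b1, b2, b3, -, b4⟩ := J α1 a1
  refine ⟨β1, b3, fun φ _ f2 => (le_max_iff.1 (n2 x (max (φ x) (p x + 2 / 3 * κ))
    fun α β ψ t i1 i2 i3 => ?_)).resolve_right (by linarith)⟩
  have i4 := ((hA _ _).1 i2).1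
  have b5 := (c3 β1 (b2.trans k3)).le
  rcases le_or_gt α1 α with j | j
  · refine le_max_of_le_right ?_
    have z := (P_sub (le_top (a := α)) x κ0.le fun a f _ => a3 a (j.trans_lt f)).1
    rw [P_eq (α := ⊤) fun a f => absurd f not_top_lt, norm_sub_rev] at z
    nlinarith [i4 x, hs t β x i3, a3 β (j.trans_lt i1), p2 (P α x - x),
      (abs_le.1 (p.norm_sub_map_le_sub (P α x) x)).2]
  have i5 : ∀ β ≤ β1, ∀ t : ℝ, α < β → |t| ≤ ε → ψ x + t * (x β - x ⊤) ≤ φ x := fun β e t f f' =>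
    f2 _ (n1 α β ψ t f i2 f') fun y => by
      change ψ _ + t * (P _ y β - P _ y ⊤) = ψ y + t * (y β - y ⊤)
      rw [ann i4 (map_zero p) ((f.le.trans e).trans b5), P_top, P_le (e.trans b5)]
  refine le_max_of_le_left ?_
  rcases le_or_gt β β1 with e | e
  · exact i5 β e t i1 i3
  · obtain ⟨t', t3, t4⟩ := sgn e0.le (x β1 - x ⊤)
    linarith [i5 β1 le_rfl t' (j.trans b1) t3, hs t β x i3,
      mul_le_mul_of_nonneg_left (b4 β (b1.trans e)) e0.le]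

theorem approx (p : Seminorm ℝ (I →ᵇ ℝ)) {c C : ℝ} (c0' : 0 < c) (C0 : 0 < C)
    (p1 : ∀ x, c * ‖x‖ ≤ p x) (p2 : ∀ x, p x ≤ C * ‖x‖) {ε : ℝ} (e0 : 0 < ε) :
    ∃ q : Seminorm ℝ (I →ᵇ ℝ), (∀ x, p x ≤ q x ∧ q x ≤ p x + ε * ‖x‖) ∧
      ∀ x, x ≠ 0 → ∃ Φ : (I →ᵇ ℝ) →L[ℝ] ℝ, HasStrictFDerivAt q Φ x := by
  obtain ⟨r, r0, hr⟩ : ∃ r : NNReal, 0 < r ∧ (r : ℝ) = 2 * C :=
    ⟨⟨2 * C, by positivity⟩, show (0 : ℝ) < 2 * C by positivity, rfl⟩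
  have i : ∀ x, (r⁻¹ • p) x = (2 * C)⁻¹ * p x := fun x => by rw [← hr]; rfl
  obtain ⟨q, q1, q2⟩ := approx0 hc (r⁻¹ • p) (c := (2 * C)⁻¹ * c) (by positivity) (fun x => by
      rw [i, mul_assoc]
      exact mul_le_mul_of_nonneg_left (p1 x) (by positivity)) (fun x => by
      rw [i, inv_mul_le_iff₀ (by positivity)]
      linarith [p2 x]) (ε := min (1 / 6) (ε / (8 * C))) (by positivity) (min_le_left _ _)
  have j : ∀ x, (r • q) x = 2 * C * q x := fun x => by rw [← hr]; rfl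
  refine ⟨r • q, fun x => ?_, fun x hx => ?_⟩
  · obtain ⟨a, b⟩ := q1 x
    rw [i] at a b
    rw [j]
    refine ⟨(inv_mul_le_iff₀ (by positivity)).1 a, ?_⟩
    have d := mul_le_mul_of_nonneg_left b (show 0 ≤ 2 * C by positivity)
    have e := (le_div_iff₀ (by positivity)).1 (min_le_right (1 / 6) (ε / (8 * C)))
    rw [mul_add, mul_inv_cancel_left₀ (by positivity)] at d
    nlinarith [norm_nonneg x]
  · obtain ⟨Φ, h⟩ := q2 x hx
    exact ⟨_, (show ((r • q : Seminorm ℝ _) : _ → ℝ) = _ from funext j) ▸ h.const_mul _⟩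

theorem noLUR {p : (I →ᵇ ℝ) → ℝ} {c : ℝ} (c0' : 0 < c) (p0 : p 0 ≤ 1) (p1 : ∀ x, c * ‖x‖ ≤ p x)
    {N : ((I →ᵇ ℝ) →L[ℝ] ℝ) → ℝ} (n1 : ∀ f x, p x ≤ 1 → f x ≤ N f)
    (n2 : ∀ f R, (∀ x, p x ≤ 1 → f x ≤ R) → N f ≤ R)
    (h : ∀ (f : (I →ᵇ ℝ) →L[ℝ] ℝ) (g : ℕ → (I →ᵇ ℝ) →L[ℝ] ℝ),
      Tendsto (fun n => 2 * N f ^ 2 + 2 * N (g n) ^ 2 - N (f + g n) ^ 2) atTop (𝓝 0) →
      Tendsto (fun n => ‖g n - f‖) atTop (𝓝 0)) : False := by
  have n0 : ∀ f, 0 ≤ N f := fun f => (map_zero f).ge.trans (n1 f 0 p0)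
  have k : ∀ η : I, ∃ t > 0, ∀ β < η,
      t ≤ 2 * N (dl η) ^ 2 + 2 * N (dl β) ^ 2 - N (dl η + dl β) ^ 2 := fun η => by
    by_contra hn
    push Not at hn
    choose β b1 b2 using fun n : ℕ => hn _ (Nat.one_div_pos_of_nat (n := n))
    refine ((h (dl η) (fun n => dl (β n)) (squeeze_zero (fun n => ?_) (fun n => (b2 n).le)
      tendsto_one_div_add_atTop_nhds_zero_nat)).eventually (gt_mem_nhds one_pos)).exists.elim
        fun n hn => ?_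
    swap
    · have := (dl (β n) - dl η).unit_le_opNorm (chi (β n)) ((norm_le zero_le_one).2 fun a => by
        rcases le_or_gt a (β n) with e | e
        · simp [chi_le e]
        · simp [chi_gt e])
      rw [sub_apply, dl_ap, dl_ap, chi_le le_rfl, chi_gt (b1 n), sub_zero, norm_one] at this
      exact not_le.2 hn this
    · have := pow_le_pow_left₀ (n0 _) (n2 (dl η + dl (β n)) _ fun x e =>
        add_le_add (n1 (dl η) x e) (n1 (dl (β n)) x e)) 2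
      nlinarith [sq_nonneg (N (dl η) - N (dl (β n)))]
  choose t t0 t1 using k
  have k : ∀ η : I, ∃ τ > 0, τ ≤ 1 ∧ τ * (16 * N (dl η) + 2) < t η := fun η =>
    ⟨min 1 (t η / 2 / (16 * N (dl η) + 2)), lt_min one_pos (div_pos (half_pos (t0 η))
      (by linarith [n0 (dl η)])), min_le_left _ _, ((le_div_iff₀ (by linarith [n0 (dl η)])).1
        (min_le_right _ _)).trans_lt (half_lt_self (t0 η))⟩
  choose τ u0 u1 u2 using k
  choose π v1 v2 using fun η : I => exists_rat_btwn (lt_add_of_pos_right (N (dl η)) (u0 η))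
  have k : ∀ r : ℚ, ∃ b < (⊤ : I), ∀ α < ⊤, ∃ β, α < β ∧ β < ⊤ ∧ ∀ η, b < η → η < ⊤ → π η = r →
      π β = r := fun r => by
    by_cases e : ∃ b < (⊤ : I), ∀ η, b < η → η < ⊤ → π η ≠ r
    · obtain ⟨b, b1, b2⟩ := e
      refine ⟨b, b1, fun α f => ?_⟩
      obtain ⟨β, b3, b4⟩ := bnd hc (countable_singleton α)
      exact ⟨β, b4 α rfl f, b3, fun η i j k => absurd k (b2 η i j)⟩
    · push Not at e
      obtain ⟨b, b1, -⟩ := bnd hc countable_empty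
      refine ⟨b, b1, fun α f => ?_⟩
      obtain ⟨β, b2, b3, b4⟩ := e α f
      exact ⟨β, b2, b3, fun _ _ _ _ => b4⟩
  choose! b b1 F f1 f2 f3 using k
  choose g g1 g2 using fun α => bnd hc (countable_range fun r => F r α)
  obtain ⟨B, B1, B2⟩ := bnd hc (countable_range b)
  obtain ⟨η, e1, e2⟩ := club hc (fun α _ => g1 α) B1
  obtain ⟨x, x1, x2⟩ : ∃ x, p x ≤ 1 ∧ N (dl η) - τ η < x η := by
    by_contra hn
    push Not at hn
    linarith [n2 (dl η) _ hn, u0 η]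
  obtain ⟨α, a1, a2⟩ := near x e2.2.1 (u0 η)
  have a3 := a1.trans e2.1
  have a4 := (g2 α _ ⟨π η, rfl⟩ (f2 _ α a3)).trans (e2.2.2 α a1)
  have a5 := f3 (π η) α a3 η ((B2 _ ⟨_, rfl⟩ (b1 _)).trans e1) e2.1 rfl
  have a6 := (abs_lt.1 (a2 _ (f1 _ α a3) a4.le)).1
  have a7 : x η + x (F (π η) α) ≤ _ := n1 (dl η + dl (F (π η) α)) x x1
  have a8 := (v1 (F (π η) α)).trans (a5.symm ▸ v2 η)
  have a9 := pow_le_pow_left₀ (n0 _) a8.le 2
  nlinarith [t1 η _ a4, u2 η, n0 (dl η), u0 η, u1 η,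
    sq_nonneg (N (dl η + dl (F (π η) α)) - 2 * N (dl η))]

end Pool.Agent.H.MP_a1e890
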