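import Pool.Agent.H.MP_a1e890.E

set_option autoImplicit false
open Set Filter Topology Function

namespace Pool.Agent.H.MP_a1e890

theorem exI : ∃ (I : Type) (_ : LinearOrder I) (_ : WellFoundedLT I) (_ : OrderTop I)
    (_ : TopologicalSpace I) (_ : OrderTopology I),
    Uncountable I ∧ ∀ a : I, a < ⊤ → (Iic a).Countable := by
  letI := Preorder.topology (WithTop (Cardinal.aleph.{0} 1).ord.ToType)
  refine ⟨WithTop (Cardinal.aleph.{0} 1).ord.ToType, inferInstance, inferInstance, inferInstance,
    this, ⟨rfl⟩, ?_, fun a ha => ?_⟩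
  · have : Uncountable (Cardinal.aleph.{0} 1).ord.ToType := by
      rw [← Cardinal.aleph0_lt_mk_iff, Cardinal.mk_ord_toType]
      exact Cardinal.aleph0_lt_aleph_one
    exact WithTop.coe_injective.uncountable
  · lift a to (Cardinal.aleph.{0} 1).ord.ToType using ha.ne
    rw [← WithTop.image_coe_Iic, ← Iio_insert]
    exact (((Cardinal.countable_iff_lt_aleph_one _).2 (Cardinal.mk_Iio_toType_ord_lt a)).insert a).image _

theorem ord_unc : Uncountable (Iic (Cardinal.aleph.{0} 1).ord) := by
  have : Uncountable (Iio (Cardinal.aleph.{0} 1).ord) := by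
    rw [← Cardinal.aleph0_lt_mk_iff, Cardinal.mk_Iio_ordinal]
    simp
  exact (inclusion_injective Iio_subset_Iic_self).uncountable

theorem ord_hc (a : Iic (Cardinal.aleph.{0} 1).ord) (h : a < ⊤) : (Iic a).Countable := by
  have : (Iio a.1).Countable := by
    rw [Cardinal.countable_iff_lt_aleph_one, Cardinal.mk_Iio_ordinal]
    simpa [← Ordinal.lift_card] using Cardinal.lt_ord.1 h
  exact ((this.insert a.1).preimage Subtype.val_injective).mono fun b hb =>
    (show b.1 ≤ a.1 from hb).eq_or_lt

end Pool.Agent.H.MP_a1e890
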