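import Pool.Agent.H.MP_a1e890.F

set_option autoImplicit false
open Set Filter Topology Function
open scoped BoundedContinuousFunction
open BoundedContinuousFunction (norm_le)

namespace Pool.Agent.H.MP_a1e890

theorem le_lim {a : ℝ} {f : ℝ → ℝ} (hf : Continuous f) (h : ∀ ε > 0, a ≤ f ε) : a ≤ f 0 :=
  ge_of_tendsto (hf.continuousWithinAt (s := Ioi 0)).tendsto (eventually_nhdsWithin_of_forall h)

theorem exlim {X J : Type*} [NormedAddCommGroup X] [NormedSpace ℝ X] [SemilatticeSup J]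
    [Nonempty J] (u : J → X →L[ℝ] ℝ)
    (h : ∀ ε > 0, ∃ N, ∀ j ≥ N, ∀ y, |u j y - u N y| ≤ ε * ‖y‖) :
    ∃ ρ : X →L[ℝ] ℝ, ∀ ε > 0, ∃ N, ∀ j ≥ N, ∀ y, |ρ y - u j y| ≤ ε * ‖y‖ := by
  obtain ⟨ρ, hρ⟩ := cauchySeq_tendsto_of_complete (u := u) (Metric.cauchySeq_iff'.2 fun ε e => by
    obtain ⟨N, hN⟩ := h _ (half_pos e)
    refine ⟨N, fun j f => ?_⟩
    rw [dist_eq_norm]
    exact ((u j - u N).opNorm_le_bound (half_pos e).le (hN j f)).trans_lt (half_lt_self e))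
  refine ⟨ρ, fun ε e => (Metric.tendsto_atTop.1 hρ ε e).imp fun N hN j f => ?_⟩
  have := hN j f
  rw [dist_comm, dist_eq_norm] at this
  exact (ρ - u j).le_of_opNorm_le this.le

variable {I : Type*} [LinearOrder I] [WellFoundedLT I] [OrderTop I] [TopologicalSpace I]
  [OrderTopology I]

omit [TopologicalSpace I] [OrderTopology I] in
theorem tri (g : I → I) (η : I) : (∀ ν < η, ¬Cl g ν) ∨
    (∃ ν < η, Cl g ν ∧ ∀ a, Cl g a → ν < a → η ≤ a) ∨ ∀ α < η, ∃ ν, α < ν ∧ ν < η ∧ Cl g ν := by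
  by_contra hn
  push Not at hn
  obtain ⟨⟨c, c1, c2⟩, h2, α, a1, a2⟩ := hn
  obtain ⟨ν, n1, n2⟩ := WellFounded.has_min wellFounded_lt {ν | ∀ a < η, Cl g a → a ≤ ν}
    ⟨α, fun a e f => not_lt.1 fun k => a2 a k e f⟩
  have n3 := (not_lt.1 (n2 α fun a e f => not_lt.1 fun k => a2 a k e f)).trans_lt a1
  obtain ⟨a, b1, b2, b3⟩ := h2 ν n3 ⟨n3.trans_le le_top, c2.2.1.imp fun a e =>
    e.trans_le (n1 c c1 c2), fun a e => by
      obtain ⟨b, b1, b2, b3⟩ : ∃ b < η, Cl g b ∧ a < b := by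
        by_contra k
        push Not at k
        exact n2 a k e
      exact (b2.2.2 a b3).trans_le (n1 b b1 b2)⟩
  exact not_le.2 b2 (n1 a b3 b1)

theorem exR (φ : (I →ᵇ ℝ) →L[ℝ] ℝ) {η : I} (h : ∃ a, a < η) : ∃ ρ : (I →ᵇ ℝ) →L[ℝ] ℝ,
    ∀ ε > 0, ∃ α < η, ∀ β, α ≤ β → β < η → ∀ y, |ρ y - φ (P β y)| ≤ ε * ‖y‖ := by
  have : Nonempty (Iio η) := Set.Nonempty.to_subtype h
  obtain ⟨ρ, hρ⟩ := exlim (fun a : Iio η => φ.comp (P a.1)) fun ε e => by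
    obtain ⟨α, a1, a2⟩ := lim φ h e
    exact ⟨⟨α, a1⟩, fun j f y => a2 α j le_rfl f j.2.le y (.inl j.2)⟩
  refine ⟨ρ, fun ε e => ?_⟩
  obtain ⟨α, a⟩ := hρ ε e
  exact ⟨α, α.2, fun β b1 b2 => a ⟨β, b2⟩ b1⟩

/-- Functionals below `n` that only see `y - y ⊤` on `[a, b]`. -/
def KK (n : (I →ᵇ ℝ) → ℝ) (a b : I) (ψ : (I →ᵇ ℝ) →L[ℝ] ℝ) : Prop :=
  ψ ∈ EE n ∧ ∀ (y : I →ᵇ ℝ) R, 0 ≤ R → (∀ c, a ≤ c → c ≤ b → |y c - y ⊤| ≤ R) → |ψ y| ≤ R

theorem KK.sub {n : (I →ᵇ ℝ) → ℝ} {a b : I} {ψ : (I →ᵇ ℝ) →L[ℝ] ℝ} (h : KK n a b ψ) (hb : b < ⊤)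
    (y : I →ᵇ ℝ) (e : I) {R : ℝ} (h0 : 0 ≤ R) (hR : ∀ c, a ≤ c → c ≤ b → |y c - y e| ≤ R) :
    |ψ y - ψ (chi b) * (y e - y ⊤)| ≤ R := by
  have := h.2 (y - (y e - y ⊤) • chi b) R h0 fun c c1 c2 => by
    convert hR c c1 c2 using 2
    simp [chi_le c2, chi_gt hb]
    ring
  rwa [map_sub, map_smul, smul_eq_mul, mul_comm] at this

theorem KK.ann {n : (I →ᵇ ℝ) → ℝ} {a b γ : I} {ψ : (I →ᵇ ℝ) →L[ℝ] ℝ} (h : KK n a b ψ) (hb : b ≤ γ)
    (y : I →ᵇ ℝ) : ψ (P γ y) = ψ y := by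
  have := h.2 (P γ y - y) 0 le_rfl fun c _ c2 => by simp [P_le (c2.trans hb), P_top]
  rwa [abs_nonpos_iff, map_sub, sub_eq_zero] at this

variable {n : Seminorm ℝ (I →ᵇ ℝ)} (n1 : ∀ y, n y ≤ ‖y‖)
  (hQ : ∀ (χ : (I →ᵇ ℝ) →L[ℝ] ℝ) (t : ℝ), 0 ≤ t → (∀ y, |χ y| ≤ t * ‖y‖) →
    (∀ y, n y = 0 → χ y = 0) → ∀ y, χ y ≤ t * n y)
include n1

omit [LinearOrder I] [WellFoundedLT I] [OrderTop I] [OrderTopology I] in
theorem van {ψ : (I →ᵇ ℝ) →L[ℝ] ℝ} (h : ψ ∈ EE n) {y : I →ᵇ ℝ} (hy : n y = 0) : ψ y = 0 :=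
  abs_nonpos_iff.1 (((semi_ok n1).abs h y).trans_eq hy)

variable [Uncountable I] (hc : ∀ a : I, a < ⊤ → (Iic a).Countable)
include hc

theorem dich : ∃ g : I → I, (∀ α < ⊤, g α < ⊤) ∧
    ((∀ a b ψ, Cl g a → b < ⊤ → KK n a b ψ → ψ (chi b) = 0) ∨
      ∀ a, Cl g a → ∀ y, n y = 0 → y a = y ⊤) := by
  by_cases h : ∃ t > 0, ∀ α < (⊤ : I), ∃ b < ⊤, ∃ a ψ, α < a ∧ KK n a b ψ ∧ t ≤ |ψ (chi b)|
  · obtain ⟨t, t0, h⟩ := h
    choose! g g1 g2 using h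
    refine ⟨g, g1, .inr fun η hη y hy => sub_eq_zero.1 (abs_nonpos_iff.1 (le_of_mul_le_mul_left ?_ t0))⟩
    rw [mul_zero]
    refine le_of_forall_pos_le_add fun κ hκ => ?_
    obtain ⟨α, a1, a2⟩ := near y hη.2.1 hκ
    obtain ⟨a, ψ, b1, b2, b3⟩ := g2 α (a1.trans hη.1)
    have := b2.sub (g1 α (a1.trans hη.1)) y η hκ.le fun c c1 c2 =>
      (a2 c (b1.trans_le c1) (c2.trans (hη.2.2 α a1).le)).le
    rw [van n1 b2.1 hy, zero_sub, abs_neg, abs_mul] at this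
    linarith [mul_le_mul_of_nonneg_right b3 (abs_nonneg (y η - y ⊤))]
  · push Not at h
    choose l l1 l2 using fun k : ℕ => h _ (Nat.one_div_pos_of_nat (n := k))
    obtain ⟨B, B1, B2⟩ := bnd hc (countable_range l)
    refine ⟨fun _ => B, fun _ _ => B1, .inl fun a b ψ ha hb k => abs_nonpos_iff.1 (not_lt.1 fun e => ?_)⟩
    obtain ⟨m, hm⟩ := exists_nat_one_div_lt e
    exact hm.not_gt (l2 m b hb a ψ ((B2 _ ⟨m, rfl⟩ (l1 m)).trans (ha.2.2 _ ha.2.1.choose_spec)) k)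

include hQ

theorem lower {g : I → I} (hg : ∀ α < ⊤, g α < ⊤) (G : ∀ η, Cl g η → ∀ φ ∈ EE n,
    ∀ ε > 0, ∃ α < η, ∀ β, α ≤ β → β < η → ∀ y, φ (P β y) ≤ n y + ε * ‖y‖) {x : I →ᵇ ℝ} {M : ℝ}
    (h0 : ∀ η ψ, Cl g η → (∀ ν < η, ¬Cl g ν) → ψ ∈ EE n → (∀ y, ψ (P η y) = ψ y) → ψ x ≤ M)
    (h1 : ∀ ν η ψ, Cl g ν → Cl g η → ν < η → (∀ a, Cl g a → ν < a → η ≤ a) → KK n ν η ψ → ψ x ≤ M)
    (M0 : 0 ≤ M) : n x ≤ 3 * M := by
  obtain ⟨ψ, p1, p2⟩ := hb n n1 x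
  choose! ρ hρ using fun η (h : Cl g η) => exR ψ h.2.1
  obtain ⟨V, v1, v2⟩ : ∃ V : I → ℝ, (∀ η, ∀ α < η, W ψ α ≤ V η) ∧ ∀ η, Cl g η →
      ∀ ε > 0, ∃ α < η, V η ≤ W ψ α + ε := by
    have b : ∀ η, BddAbove (W ψ '' Iio η) := fun η => ⟨‖ψ‖, by
      rintro _ ⟨a, -, rfl⟩
      exact W_norm ψ a⟩
    refine ⟨fun η => sSup (W ψ '' Iio η), fun η α e => le_csSup (b η) ⟨α, e, rfl⟩, fun η h ε e => ?_⟩
    obtain ⟨_, ⟨α, a1, rfl⟩, a2⟩ := exists_lt_of_lt_csSup (s := W ψ '' Iio η)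
      ⟨_, _, h.2.1.choose_spec, rfl⟩ (sub_lt_self _ e)
    exact ⟨α, a1, by linarith⟩
  have v3 : ∀ ν η, Cl g ν → ν ≤ η → V ν ≤ V η := fun ν η h e =>
    le_of_forall_pos_le_add fun ε e0 => by
      obtain ⟨α, a1, a2⟩ := v2 ν h ε e0
      linarith [v1 η α (a1.trans_le e)]
  have r1 : ∀ η, Cl g η → ρ η ∈ EE n := fun η h y => by
    have := le_lim (a := ρ η y) (f := fun ε => n y + 2 * ε * ‖y‖) (by fun_prop) fun ε e => by
      obtain ⟨α, a1, a2⟩ := hρ η h ε e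
      obtain ⟨β, b1, b2⟩ := G η h ψ p1 ε e
      linarith [(abs_le.1 (a2 _ (le_max_left α β) (max_lt a1 b1) y)).2,
        b2 _ (le_max_right α β) (max_lt a1 b1) y]
    simpa using this
  have r2 : ∀ ν η, Cl g ν → Cl g η → ν < η → ∀ (y : I →ᵇ ℝ) R, 0 ≤ R →
      (∀ c, ν ≤ c → c ≤ η → |y c - y ⊤| ≤ R) → |(ρ η - ρ ν) y| ≤ (V η - V ν) * R :=
    fun ν η i j e y R R0 hR => by
      have := le_lim (a := |(ρ η - ρ ν) y|) (f := fun ε => (V η - V ν + ε) * (R + ε) + 2 * ε * ‖y‖)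
        (by fun_prop) fun ε e0 => by
          obtain ⟨α1, a1, a2⟩ := hρ ν i ε e0
          obtain ⟨α2, a3, a4⟩ := v2 ν i ε e0
          obtain ⟨α3, a5, a6⟩ := near y i.2.1 e0
          obtain ⟨β, b1, b2⟩ := hρ η j ε e0
          have m := max_lt a1 (max_lt a3 a5)
          have m' := max_lt b1 e
          have c1 := abs_le.1 (a2 _ (le_max_left _ _) m y)
          have c2 := abs_le.1 (b2 _ (le_max_left _ _) m' y)
          have c3 := abs_le.1 ((W_P ψ (m.le.trans (le_max_right β ν)) y (add_nonneg R0 e0.le)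
            fun a f f' => by
              rcases le_total a ν with k | k
              · linarith [abs_sub_le (y a) (y ν) (y ⊤), hR ν le_rfl e.le,
                  a6 a (((le_max_right _ _).trans (le_max_right _ _)).trans_lt f) k]
              · linarith [hR a k (f'.trans m'.le)]).trans (mul_le_mul_of_nonneg_right
                (show _ ≤ V η - V ν + ε by
                  linarith [v1 η _ m', W_mono ψ ((le_max_left α2 α3).trans (le_max_right α1 _))])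
                (add_nonneg R0 e0.le)))
          rw [sub_apply]
          exact abs_le.2 ⟨by linarith [c1.2, c2.1, c3.1], by linarith [c1.1, c2.2, c3.2]⟩
      simpa using this
  have key : ∀ η, Cl g η → ρ η x ≤ (1 + 2 * V η) * M := fun η => by
    induction η using WellFoundedLT.induction with | ind η ih => ?_
    intro h
    rcases tri g η with t | ⟨ν, t1, t2, t3⟩ | t
    · have a := le_W ψ (α := h.2.1.choose) (z := 0) (by simp) fun _ _ => rfl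
      rw [map_zero] at a
      refine (h0 η _ h t (r1 η h) fun y => sub_eq_zero.1 (abs_nonpos_iff.1 ?_)).trans
        (by nlinarith [v1 η _ h.2.1.choose_spec])
      have := le_lim (a := |ρ η (P η y) - ρ η y|) (f := fun ε => 2 * ε * ‖y‖) (by fun_prop)
        fun ε e => by
          obtain ⟨α, a1, a2⟩ := hρ η h ε e
          have c1 := abs_le.1 ((a2 α le_rfl a1 (P η y)).trans
            (mul_le_mul_of_nonneg_left (P_norm η y) e.le))
          have c2 := abs_le.1 (a2 α le_rfl a1 y)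
          rw [P_P' a1.le] at c1
          exact abs_le.2 ⟨by linarith [c1.1, c2.2], by linarith [c1.2, c2.1]⟩
      simpa using this
    · have d := sub_nonneg.2 (v3 ν η t2 t1.le)
      have c1 := r2 ν η t2 h t1
      have c2 := hQ (ρ η - ρ ν) (2 * (V η - V ν)) (by positivity) (fun y => by
        linarith [c1 y _ (by positivity) fun c _ _ => ab2 y c ⊤]) fun y hy => by
          rw [sub_apply, van n1 (r1 η h) hy, van n1 (r1 ν t2) hy, sub_self]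
      have c3 : (ρ η - ρ ν) x ≤ 2 * (V η - V ν) * M := by
        rcases d.eq_or_lt with d | d
        · simpa [← d] using c2 x
        · have p : 0 < 2 * (V η - V ν) := by positivity
          refine (inv_mul_le_iff₀ p).1 (h1 ν η ((2 * (V η - V ν))⁻¹ • (ρ η - ρ ν)) t2 h t1 t3
            ⟨fun y => (inv_mul_le_iff₀ p).2 (c2 y), fun y R R0 hR => ?_⟩)
          rw [smul_apply, smul_eq_mul, abs_mul, abs_of_pos (inv_pos.2 p), inv_mul_le_iff₀ p]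
          nlinarith [c1 y R R0 hR]
      rw [sub_apply] at c3
      linarith [ih ν t1 t2]
    · have := le_lim (a := ρ η x) (f := fun ε => (1 + 2 * V η) * M + 2 * ε * ‖x‖) (by fun_prop)
        fun ε e => by
          obtain ⟨α, a1, a2⟩ := hρ η h ε e
          obtain ⟨ν, b1, b2, b3⟩ := t α a1
          obtain ⟨β, c1, c2⟩ := hρ ν b3 ε e
          have m := max_lt b1 c1
          nlinarith [(abs_le.1 (a2 _ (le_max_left α β) (m.trans b2) x)).2, ih ν b2 b3,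
            (abs_le.1 (c2 _ (le_max_right α β) m x)).1, v3 ν η b3 b2.le]
      simpa using this
  obtain ⟨α, a1, a2⟩ := evc hc x
  obtain ⟨η, e1, e2⟩ := club hc hg a1
  have := le_lim (a := n x) (f := fun ε => (3 + 2 * ε) * M + ε * ‖x‖) (by fun_prop) fun ε e => by
    obtain ⟨β, b1, b2⟩ := hρ η e2 ε e
    obtain ⟨γ, c1, c2⟩ := v2 η e2 ε e
    have d := (abs_le.1 (b2 _ (le_max_left β α) (max_lt b1 e1) x)).1
    rw [← a2, P_P (le_max_right _ _), a2, p2] at d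
    nlinarith [key η e2, W_norm ψ γ, (semi_ok n1).norm p1]
  simpa using this

end Pool.Agent.H.MP_a1e890
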