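import Pool.Agent.H.MP_a1e890.G

set_option autoImplicit false
open Set Filter Topology Function
open scoped BoundedContinuousFunction
open BoundedContinuousFunction (norm_le)

namespace Pool.Agent.H.MP_a1e890

variable {I : Type*} [LinearOrder I] [WellFoundedLT I] [OrderTop I] [TopologicalSpace I]
  [OrderTopology I] {n : Seminorm ℝ (I →ᵇ ℝ)} (n1 : ∀ y, n y ≤ ‖y‖)
  (hQ : ∀ (χ : (I →ᵇ ℝ) →L[ℝ] ℝ) (t : ℝ), 0 ≤ t → (∀ y, |χ y| ≤ t * ‖y‖) →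
    (∀ y, n y = 0 → χ y = 0) → ∀ y, χ y ≤ t * n y)
  [Uncountable I] (hc : ∀ a : I, a < ⊤ → (Iic a).Countable)
include n1 hQ hc

theorem quot : ∃ q : Seminorm ℝ (I →ᵇ ℝ), (∀ x, n x ≤ 3 * q x ∧ q x ≤ 2 * n x) ∧
    ∀ x, 0 < n x → ∃ Φ : (I →ᵇ ℝ) →L[ℝ] ℝ, HasStrictFDerivAt q Φ x := by
  obtain ⟨g1, g11, g12⟩ := good hc n
  obtain ⟨g2, g21, g22⟩ := dich n1 hc
  obtain ⟨g, hg, c1, c2⟩ : ∃ g : I → I, (∀ α < ⊤, g α < ⊤) ∧ (∀ η, Cl g η → Cl g1 η) ∧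
      ∀ η, Cl g η → Cl g2 η := ⟨fun a => max (g1 a) (g2 a), fun a e => max_lt (g11 a e) (g21 a e),
    fun η h => ⟨h.1, h.2.1, fun a e => (le_max_left _ _).trans_lt (h.2.2 a e)⟩,
    fun η h => ⟨h.1, h.2.1, fun a e => (le_max_right _ _).trans_lt (h.2.2 a e)⟩⟩
  have k : ∀ β < (⊤ : I), ∃ μ, β < μ ∧ Cl g μ ∧ ∀ a, Cl g a → β < a → μ ≤ a := fun β h => by
    obtain ⟨μ, m1, m2⟩ := WellFounded.has_min wellFounded_lt {μ | β < μ ∧ Cl g μ} (club hc hg h)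
    exact ⟨μ, m1.1, m1.2, fun a e f => not_lt.1 (m2 a ⟨f, e⟩)⟩
  choose! nx x1 x2 x3 using k
  obtain ⟨l0, y1, y2⟩ : ∃ l0, Cl g l0 ∧ ∀ a, Cl g a → l0 ≤ a := by
    obtain ⟨b, b1, -⟩ := bnd hc countable_empty
    obtain ⟨μ, m1, m2⟩ := WellFounded.has_min wellFounded_lt {μ | Cl g μ} ⟨_, x2 b b1⟩
    exact ⟨μ, m1, fun a e => not_lt.1 (m2 a e)⟩
  obtain ⟨o, o0, o1, o2⟩ : ∃ o : I → (I →ᵇ ℝ) → ℝ, (∀ β y, 0 ≤ o β y) ∧
      (∀ β y a, β ≤ a → a ≤ nx β → |y a - y β| ≤ o β y) ∧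
      ∀ β y R, 0 ≤ R → (∀ a, β ≤ a → a ≤ nx β → |y a - y β| ≤ R) → o β y ≤ R :=
    ⟨fun β y => sSup ((fun a => |y a - y β|) '' Icc β (nx β)), fun β y => Real.sSup_nonneg (by
      rintro _ ⟨a, -, rfl⟩
      exact abs_nonneg _), fun β y a e f => le_csSup ⟨2 * ‖y‖, by
      rintro _ ⟨a, -, rfl⟩
      exact ab2 y a β⟩ ⟨a, ⟨e, f⟩, rfl⟩, fun β y R h0 h => Real.sSup_le (by
      rintro _ ⟨a, e, rfl⟩
      exact h a e.1 e.2) h0⟩
  have o3 : ∀ β y, o β (-y) ≤ o β y := fun β y => o2 _ _ _ (o0 _ _) fun a e f => by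
    simpa [neg_add_eq_sub, abs_sub_comm] using o1 β y a e f
  obtain ⟨γ, e, γ1, γ2⟩ : ∃ (γ : I → I) (e : I → (I →ᵇ ℝ) → ℝ), (γ ⊤ = l0 ∧ ∀ y, e ⊤ y = ‖P l0 y‖) ∧
      ∀ β < ⊤, γ β = nx β ∧ ∀ y, e β y = o β y / 2 :=
    ⟨fun β => if β < ⊤ then nx β else l0, fun β y => if β < ⊤ then o β y / 2 else ‖P l0 y‖,
      by simp, fun β h => by simp [h]⟩
  have γ3 : ∀ β, Cl g (γ β) := fun β => by
    rcases (le_top (a := β)).eq_or_lt with rfl | h
    exacts [γ1.1 ▸ y1, (γ2 β h).1 ▸ x2 β h]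
  have ok : ∀ β, Ok fun y => min (n y) (e β y) := fun β => by
    rcases (le_top (a := β)).eq_or_lt with rfl | h
    · simpa only [γ1.2] using E_ok (semi_ok n1) l0
    · refine (semi_ok n1).min (fun y => ?_) fun y => ?_
      · rw [(γ2 β h).2, (γ2 β h).2, le_antisymm (o3 β y) (by simpa using o3 β (-y))]
      · rw [(γ2 β h).2]
        linarith [o0 β y]
  have dk : ∀ β < ⊤, ∀ ψ ∈ EE fun y => min (n y) (e β y), KK n β (nx β) ψ := fun β h ψ p =>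
    ⟨fun y => (p y).trans (min_le_left _ _), fun y R R0 hR => by
      have := ((ok β).abs p y).trans (min_le_right _ _)
      rw [(γ2 β h).2] at this
      linarith [o2 β y (2 * R) (by positivity) fun a i j => by
        linarith [abs_sub_le (y a) (y ⊤) (y β), hR a i j, hR β le_rfl (x1 β h).le,
          abs_sub_comm (y ⊤) (y β)]]⟩
  have da : ∀ β, ∀ ψ ∈ EE fun y => min (n y) (e β y), ∀ y, ψ (P (γ β) y) = ψ y := fun β ψ p => by
    rcases (le_top (a := β)).eq_or_lt with rfl | h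
    · exact ann (q := norm) (fun y => γ1.2 y ▸ (p y).trans (min_le_right _ _)) norm_zero γ1.1.ge
    · exact (dk β h ψ p).ann (γ2 β h).1.ge
  choose d d1 d2 d3 using fun β => smo (ok β) ((sep (hc _ (γ3 β).1)).mono (da β)) one_pos le_rfl
  have d4 : ∀ β x, d β x ≤ min (n x) (e β x) := fun β x => by
    obtain ⟨ψ, p, q⟩ := d2 β x
    exact q.trans (p x)
  obtain ⟨N, N1, N2⟩ := exists_sup (H := {ψ | (ψ ∈ EE n ∧ ∀ y, ψ (P l0 y) = ψ y) ∨
      ∃ β, Cl g β ∧ KK n β (nx β) ψ}) (.inl ⟨apply_nonneg n, fun _ => rfl⟩) (by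
      rintro ψ (p | ⟨β, p, q⟩)
      · exact .inl ⟨(semi_ok n1).neg p.1, fun y => congrArg Neg.neg (p.2 y)⟩
      · exact .inr ⟨β, p, (semi_ok n1).neg q.1, fun y R a b => (abs_neg _).trans_le (q.2 y R a b)⟩)
    (by
      rintro ψ (p | ⟨β, p, q⟩) y
      exacts [(p.1 y).trans (n1 y), (q.1 y).trans (n1 y)])
  have N3 : ∀ x, N x ≤ n x := fun x => N2 _ _ (by
    rintro ψ (p | ⟨β, p, q⟩)
    exacts [p.1 x, q.1 x])
  have N4 : ∀ x, n x ≤ 3 * N x := fun x => lower n1 hQ hc hg (fun η h => g12 η (c1 η h))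
    (fun η ψ h1 h2 h3 h4 => N1 ψ (.inl ⟨h3, by
      rwa [le_antisymm (y2 η h1) (not_lt.1 fun f => h2 _ f y1)]⟩) x)
    (fun ν η ψ h1 h2 h3 h4 h5 => N1 ψ (.inr ⟨ν, h1, by
      rwa [le_antisymm (x3 ν h1.1 η h2 h3) (h4 _ (x2 ν h1.1) (x1 ν h1.1))]⟩) x) (apply_nonneg _ _)
  have okN := semi_ok fun x => (N3 x).trans (n1 x)
  have : Nonempty {β // Cl g β ∨ β = ⊤} := ⟨⊤, .inr rfl⟩
  refine (mainT (Γ := {β // Cl g β ∨ β = ⊤}) (f := fun j y => min (N y) ‖P (γ j) y‖) (N := N)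
    (d := fun j => d j) (fun j => E_ok okN _) (fun j => E_sep (hc _ (γ3 j).1) _) (fun x y => by
      simpa using (N.norm_sub_map_le_sub y x).trans (okN.le _))
    (fun β ψ h x => (h x).trans (min_le_left _ _))
    (fun j y => (d4 j y).trans ((ok j).le y))
    (fun x θ h => (((c0 x (S := {β | Cl g β ∧ θ ≤ o β x / 2}) (σ := nx)
      (fun a ha b hb => x3 a ha.1.1 b hb.1) h (fun β hβ => by
        by_contra f
        push Not at f
        linarith [hβ.2, o2 β x θ h.le fun a i j => (f a i j).le]) ⊤).insert ⊤).preimage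
          Subtype.val_injective.injOn).subset fun j hj => j.2.symm.imp_right fun e =>
            ⟨⟨e, (γ2 _ e.1).2 x ▸ hj.trans ((d4 j x).trans (min_le_right _ _))⟩, le_top⟩)
    (fun j x h => ⟨d3 j x h, by
      obtain ⟨ψ, p, q⟩ := d2 j x
      refine ⟨ψ, E_mem okN (N1 ψ ?_) (da j ψ p), h.trans_le q⟩
      obtain ⟨j, e | rfl⟩ := j
      · exact .inr ⟨j, e, dk j e.1 ψ p⟩
      · exact .inl ⟨fun y => (p y).trans (min_le_left _ _), γ1.1 ▸ da _ ψ p⟩⟩)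
    (fun x hx => ?_) one_pos le_rfl).elim fun q ⟨q1, q2, q3⟩ => ⟨q, fun x => ⟨by
      linarith [N4 x, q1 x], by
      linarith [N3 x, q2 x _ fun j => (d4 j x).trans (min_le_left _ _)]⟩,
      fun x hx => q3 x (by linarith [N4 x])⟩
  suffices h : ∃ β, (Cl g β ∨ β = ⊤) ∧ 0 < d β x ∧ ∀ ν ψ, Cl g ν → KK n ν (nx ν) ψ →
      N x / 2 < ψ x → nx ν ≤ γ β by
    obtain ⟨β, h1, h2, h3⟩ := h
    obtain ⟨φ, f1, f2⟩ := (E_ok okN (γ β)).max x
    refine ⟨⟨β, h1⟩, h2, φ, f1, (le_max_iff.1 (N2 x (max (φ x) (N x / 2)) fun ψ p => ?_)).resolve_right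
      (by linarith)⟩
    rcases le_or_gt (ψ x) (N x / 2) with i | i
    · exact le_max_of_le_right i
    refine le_max_of_le_left (f2 ψ (E_mem okN (N1 ψ p) fun y => ?_))
    obtain p | ⟨ν, p, q⟩ := p
    · rw [← p.2, P_P' (y2 _ (γ3 β)), p.2]
    · exact q.ann (h3 ν ψ p q i) y
  have z0 : ∀ β, d β x ≤ 0 → ∀ ψ ∈ EE fun y => min (n y) (e β y), ψ x ≤ 0 := fun β h ψ p => by
    linarith [d1 β ψ p x]
  have z1 : ∀ β < ⊤, ∀ χ : (I →ᵇ ℝ) →L[ℝ] ℝ, (∀ y, |χ y| ≤ o β y) → (∀ y, n y = 0 → χ y = 0) →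
      d β x ≤ 0 → χ x ≤ 0 := fun β h χ i j k => by
    have := z0 β k ((1 / 2 : ℝ) • χ) fun y => by
      dsimp only
      rw [smul_apply, smul_eq_mul, (γ2 β h).2]
      exact le_min (by linarith [hQ χ 2 zero_le_two (fun y => (i y).trans
        (o2 β y _ (by positivity) fun a _ _ => ab2 y a β)) j y]) (by linarith [(abs_le.1 (i y)).2])
    rw [smul_apply, smul_eq_mul] at this
    linarith
  have z2 : ∀ β, Cl g β → (∀ ν, Cl g ν → β ≤ ν → d ν x ≤ 0) →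
      (∀ a b ψ, Cl g2 a → b < ⊤ → KK n a b ψ → ψ (chi b) = 0) ∨ x β = x ⊤ := fun β h h' =>
    g22.imp_right fun A => by
      have s : ∀ ν, Cl g ν → β ≤ ν → x (nx ν) = x ν := fun ν i j => by
        have v : ∀ y, n y = 0 → y (nx ν) - y ν = 0 := fun y f => by
          rw [A _ (c2 _ i) y f, A _ (c2 _ (x2 ν i.1)) y f, sub_self]
        have a : x (nx ν) - x ν ≤ 0 := z1 ν i.1 (dl (nx ν) - dl ν)
          (fun y => o1 ν y _ (x1 ν i.1).le le_rfl) v (h' ν i j)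
        have b : -(x (nx ν) - x ν) ≤ 0 := z1 ν i.1 (-(dl (nx ν) - dl ν))
          (fun y => (abs_neg _).trans_le (o1 ν y _ (x1 ν i.1).le le_rfl))
          (fun y f => neg_eq_zero.2 (v y f)) (h' ν i j)
        linarith
      have t : ∀ η, Cl g η → β ≤ η → x η = x β := fun η => by
        induction η using WellFoundedLT.induction with | ind η ih => ?_
        intro i j
        rcases j.eq_or_lt with rfl | j
        · rfl
        rcases tri g η with t | ⟨ν, t1, t2, t3⟩ | t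
        · exact absurd h (t β j)
        · have := not_lt.1 fun f => not_le.2 j (t3 β h f)
          rw [← ih ν t1 t2 this, ← s ν t2 this,
            le_antisymm (x3 ν t2.1 η i t1) (t3 _ (x2 ν t2.1) (x1 ν t2.1))]
        · refine (sub_eq_zero.1 (abs_nonpos_iff.1 (le_of_forall_pos_le_add fun κ hκ => ?_))).symm
          obtain ⟨α, a1, a2⟩ := near x i.2.1 hκ
          obtain ⟨ν, b1, b2, b3⟩ := t _ (max_lt a1 j)
          rw [← ih ν b2 b3 ((le_max_right _ _).trans b1.le), zero_add]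
          exact (a2 ν ((le_max_left _ _).trans_lt b1) b2.le).le
      obtain ⟨α, a1, a2⟩ := evc hc x
      have m := max_lt a1 h.1
      rw [← t _ (x2 _ m) ((le_max_right _ _).trans (x1 _ m).le), ← a2,
        P_gt ((le_max_left _ _).trans_lt (x1 _ m)), P_top]
  obtain ⟨T, hT⟩ : ∃ T : Set I, ∀ β, β ∈ T ↔ Cl g β ∧ ∃ ψ, KK n β (nx β) ψ ∧ N x / 2 < ψ x :=
    ⟨_, fun _ => Iff.rfl⟩
  have T1 : ∀ β ∈ T, ∃ ν, Cl g ν ∧ β ≤ ν ∧ 0 < d ν x := fun β hβ => by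
    obtain ⟨i, ψ, p, q⟩ := (hT β).1 hβ
    by_contra f
    push Not at f
    have a : ψ x - ψ (chi (nx β)) * (x β - x ⊤) ≤ 0 :=
      z1 β i.1 (ψ - ψ (chi (nx β)) • (dl β - dl ⊤))
        (fun y => p.sub (x2 β i.1).1 y β (o0 β y) (o1 β y)) (fun y hy => by
          change ψ y - ψ (chi (nx β)) * (y β - y ⊤) = 0
          rcases g22 with B | A
          · rw [van n1 p.1 hy, B β _ ψ (c2 β i) (x2 β i.1).1 p, zero_mul, sub_zero]
          · rw [van n1 p.1 hy, A β (c2 β i) y hy, sub_self, mul_zero, sub_zero]) (f β i le_rfl)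
    rcases z2 β i f with B | A
    · rw [B β _ ψ (c2 β i) (x2 β i.1).1 p] at a
      linarith
    · rw [A] at a
      linarith
  rcases T.eq_empty_or_nonempty with T0 | ⟨β0, T0⟩
  · have T2 : ∀ ν ψ, Cl g ν → KK n ν (nx ν) ψ → ψ x ≤ N x / 2 := fun ν ψ i p => not_lt.1 fun q =>
      notMem_empty ν (T0 ▸ (hT ν).2 ⟨i, ψ, p, q⟩)
    refine ⟨⊤, .inr rfl, not_le.1 fun f => ?_, fun ν ψ i p q => absurd q (T2 ν ψ i p).not_gt⟩
    linarith [N2 x (N x / 2) (by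
      rintro ψ (p | ⟨ν, i, p⟩)
      · linarith [z0 ⊤ f ψ (by simpa only [γ1.2] using E_mem (semi_ok n1) p.1 p.2)]
      · exact T2 ν ψ i p)]
  by_contra hn
  have T2 : ∀ ν, Cl g ν → 0 < d ν x → ∃ β ∈ T, ν < β := fun ν i j => by
    by_contra f
    push Not at f
    exact hn ⟨ν, .inl i, j, fun β ψ p q r => (γ2 ν i.1).1 ▸ x3 β p.1 _ (x2 ν i.1)
      ((f β ((hT β).2 ⟨p, ψ, q, r⟩)).trans_lt (x1 ν i.1))⟩
  obtain ⟨η, e1, e2⟩ := WellFounded.has_min wellFounded_lt (upperBounds T) ⟨⊤, fun _ _ => le_top⟩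
  have T3 : ∀ β ∈ T, nx β ≤ η := fun β hβ => by
    obtain ⟨ν, i, j, k⟩ := T1 β hβ
    obtain ⟨β', p, q⟩ := T2 ν i k
    exact (x3 β ((hT β).1 hβ).1.1 β' ((hT β').1 p).1 (j.trans_lt q)).trans (e1 p)
  have T4 : ∀ α < η, ∃ β ∈ T, α < β := fun α f => by
    by_contra k
    push Not at k
    exact e2 α k f
  have T5 : ∃ a, a < η := ⟨β0, (x1 _ ((hT β0).1 T0).1.1).trans_le (T3 β0 T0)⟩
  obtain ⟨α, a1, a2⟩ := near x T5 (show 0 < N x / 8 by linarith)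
  obtain ⟨β, b1, b2⟩ := T4 α a1
  obtain ⟨i, ψ, p, q⟩ := (hT β).1 b1
  have a3 := a2 β b2 (e1 b1)
  have a4 := (abs_le.1 (p.sub (x2 β i.1).1 x β (R := N x / 4) (by linarith) fun c j k => by
    linarith [abs_sub_le (x c) (x η) (x β), a2 c (b2.trans_le j) (k.trans (T3 β b1)),
      abs_sub_comm (x η) (x β)])).2
  have a5 := p.2 (chi (nx β)) 1 zero_le_one fun c _ k => by simp [chi_le k, chi_gt (x2 β i.1).1]
  have a6 : (∀ a b ψ, Cl g2 a → b < ⊤ → KK n a b ψ → ψ (chi b) = 0) ∨ x η = x ⊤ := by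
    rcases (le_top (a := η)).eq_or_lt with rfl | f
    · exact .inr rfl
    refine z2 η ⟨f, T5, fun a k => ?_⟩ fun ν j k => not_lt.1 fun r => ?_
    · obtain ⟨β, b1, b2⟩ := T4 a k
      exact (((hT β).1 b1).1.2.2 a b2).trans_le (e1 b1)
    · obtain ⟨β, b1, b2⟩ := T2 ν j r
      exact not_le.2 b2 ((e1 b1).trans k)
  rcases a6 with B | A
  · rw [B β _ ψ (c2 β i) (x2 β i.1).1 p] at a4
    linarith
  · rw [A] at a3
    have := (le_abs_self _).trans ((abs_mul _ _).trans_le (mul_le_mul a5 a3.le (abs_nonneg _)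
      zero_le_one))
    linarith

end Pool.Agent.H.MP_a1e890
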